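import Pool.Agent.Helper878_bs.Sound
import Pool.Agent.Helper878_dcs.Fam

/-!
# All nonadjacent pairs are split by all indices

A relaxed solution and, for every direction, an assignment of a vertex outside the two classes of
the direction or of an edge between them give a solution.
-/

set_option autoImplicit false
set_option linter.unusedSectionVars false

namespace Pool.Agent.Helper878_bj

open Finset Pool.Agent.Helper878_mm Pool.Agent.Helper878_bs
open Pool.Agent.Helper878_dcs (Assign)
open scoped Classical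

variable {ι : Type} [DecidableEq ι] [Fintype ι]

/-- the label on the other side -/
def fl (x : Fin 3) : Fin 3 := if x = 0 then 0 else if x = 1 then 2 else 1

theorem fl_fl (x : Fin 3) : fl (fl x) = x := by revert x; decide

theorem fl_zero {x : Fin 3} : fl x = 0 ↔ x = 0 := by revert x; decide

theorem fl_ne {x : Fin 3} (h : x ≠ 0) : fl x ≠ x := by revert x; decide

theorem fl_one : fl 1 = 2 := by decide

theorem fl_two : fl 2 = 1 := by decide

/-- two different nonzero labels -/
theorem eq_fl {x y : Fin 3} (hx : x ≠ 0) (hy : y ≠ 0) (h : x ≠ y) : y = fl x := by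
  revert x y; decide

/-- the setting -/
structure HN (W : Finset ℕ) (σ : ι → ℕ → Fin 3) (A : ℕ → ℕ → Prop) : Prop where
  sym : ∀ a b, A a b → A b a
  opp : ∀ a ∈ W, ∀ b ∈ W, a ≠ b → ¬ A a b → ∀ i, σ i b = fl (σ i a)

/-- the vertices with the same types as `e` -/
noncomputable def Pe (W : Finset ℕ) (σ : ι → ℕ → Fin 3) (e : ℕ) : Finset ℕ :=
  W.filter fun w => ∀ i, σ i w = σ i e

/-- the vertices with the opposite types -/
noncomputable def Qe (W : Finset ℕ) (σ : ι → ℕ → Fin 3) (e : ℕ) : Finset ℕ :=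
  W.filter fun w => ∀ i, σ i w = fl (σ i e)

/-- the test for the direction `e` -/
def Test (W : Finset ℕ) (σ : ι → ℕ → Fin 3) (A : ℕ → ℕ → Prop) (e : ℕ) : Prop :=
  Assign ((univ : Finset ι).filter fun i => σ i e ≠ 0)
    (fun _ w => w ∈ W ∧ w ∉ Pe W σ e ∧ w ∉ Qe W σ e)
    (fun a b => a ∈ Pe W σ e ∧ b ∈ Qe W σ e ∧ A a b)

variable {W : Finset ℕ} {σ : ι → ℕ → Fin 3} {A : ℕ → ℕ → Prop}

theorem mem_Pe {e w : ℕ} : w ∈ Pe W σ e ↔ w ∈ W ∧ ∀ i, σ i w = σ i e := by
  unfold Pe; rw [mem_filter]

theorem mem_Qe {e w : ℕ} : w ∈ Qe W σ e ↔ w ∈ W ∧ ∀ i, σ i w = fl (σ i e) := by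
  unfold Qe; rw [mem_filter]

theorem HN.ctx (h : HN W σ A) : Ctx W σ A (fun a b => ¬ A a b) where
  sym := fun a b hab hba => hab (h.sym b a hba)
  adj := fun _ _ _ _ _ _ _ hn => not_not.1 hn

/-- a good pair from two adjacent vertices with different types -/
theorem good_pair {i : ι} {a b : ℕ} (hs : ∀ a b, A a b → A b a) (ha : a ∈ W) (hb : b ∈ W)
    (h1 : σ i a ≠ 0) (h2 : σ i b ≠ 0) (h3 : σ i a ≠ σ i b) (hab : A a b) :
    Good W σ A i {a, b} := by
  rcases fin3 (σ i a) with e | e | e
  · exact absurd e h1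
  · rcases fin3 (σ i b) with f | f | f
    · exact absurd f h2
    · exact absurd (e.trans f.symm) h3
    · exact Or.inr ⟨a, ha, b, hb, e, f, hab, rfl⟩
  · rcases fin3 (σ i b) with f | f | f
    · exact absurd f h2
    · exact Or.inr ⟨b, hb, a, ha, f, e, hs _ _ hab, pair_comm a b⟩
    · exact absurd (e.trans f.symm) h3

/-- a vertex adjacent to both vertices of a pair serves the index with one of them -/
theorem serve {i : ι} {x y f : ℕ} (hs : ∀ a b, A a b → A b a) {s : Finset ℕ}
    (hi : SP W σ i s x y) (hf : f ∈ W) (h1 : A x f) (h2 : A y f) :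
    ∃ p ⊆ ({x, y, f} : Finset ℕ), Good W σ A i p := by
  by_cases h0 : σ i f = 0
  · exact ⟨{f}, by simp, Or.inl ⟨f, hf, h0, rfl⟩⟩
  · by_cases h3 : σ i f = 1
    · refine ⟨{f, y}, ?_, good_pair hs hf hi.hb h0 (by rw [hi.h2]; decide)
        (by rw [h3, hi.h2]; decide) (hs _ _ h2)⟩
      intro v hv
      simp only [mem_insert, mem_singleton] at hv ⊢
      tauto
    · refine ⟨{x, f}, ?_, good_pair hs hi.ha hf (by rw [hi.h1]; decide) h0
        (by rw [hi.h1]; exact fun e => h3 e.symm) h1⟩
      intro v hv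
      simp only [mem_insert, mem_singleton] at hv ⊢
      tauto

/-- a relaxed solution with the minimum number of bad indices -/
structure MinRel (W : Finset ℕ) (σ : ι → ℕ → Fin 3) (A : ℕ → ℕ → Prop) (o : ι → Finset ℕ) :
    Prop where
  rel : Rel W σ o
  min : ∀ o', Rel W σ o' → (Vb W σ A o).card ≤ (Vb W σ A o').card

theorem exists_min (hR : ∃ o, Rel W σ o) : ∃ o, MinRel W σ A o := by
  have hex : ∃ n, ∃ o, Rel W σ o ∧ (Vb W σ A o).card = n := by
    obtain ⟨o, ho⟩ := hR
    exact ⟨_, o, ho, rfl⟩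
  obtain ⟨o, h1, h2⟩ := Nat.find_spec hex
  exact ⟨o, h1, fun o' h' => by rw [h2]; exact Nat.find_min' hex ⟨o', h', rfl⟩⟩

/-- changing one bad index and possibly other good ones is impossible -/
theorem MinRel.no_imp {o : ι → Finset ℕ} (h : MinRel W σ A o) {i : ι} (hi : i ∈ Vb W σ A o)
    {o' : ι → Finset ℕ} (hr : Rel W σ o') (hg : Good W σ A i (o' i))
    (hk : ∀ k, k ∉ Vb W σ A o → Good W σ A k (o' k)) : False := by
  have h1 : Vb W σ A o' ⊆ (Vb W σ A o).erase i := by
    intro k hk'
    rw [mem_Vb] at hk'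
    refine mem_erase.2 ⟨fun he => hk' (he ▸ hg), ?_⟩
    by_contra hn
    exact hk' (hk k hn)
  have h2 := card_le_card h1
  have h3 := h.min o' hr
  rw [card_erase_of_mem hi] at h2
  have h4 := card_pos.2 ⟨i, hi⟩
  omega

/-- updating one index with old and free vertices -/
theorem rel_update {o : ι → Finset ℕ} (hr : Rel W σ o) {i : ι} {s : Finset ℕ}
    (hs : Good W σ A i s) (hf : ∀ v ∈ s, v ∈ o i ∨ ∀ j, v ∉ o j) :
    Rel W σ (Function.update o i s) := by
  refine ⟨fun k => ?_, fun k l hkl => ?_⟩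
  · by_cases e : k = i
    · rw [e, Function.update_self]; exact hs.isOpt
    · rw [Function.update_of_ne e]; exact hr.opt k
  · have key : ∀ l, l ≠ i → Disjoint s (o l) := by
      intro l hl
      rw [disjoint_left]
      intro v hv hv'
      rcases hf v hv with h1 | h1
      · exact disjoint_left.1 (hr.dis i l (fun e => hl e.symm)) h1 hv'
      · exact h1 l hv'
    by_cases e : k = i
    · have f : l ≠ i := fun f => hkl (e.trans f.symm)
      rw [e, Function.update_self, Function.update_of_ne f]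
      exact key l f
    · by_cases f : l = i
      · rw [f, Function.update_self, Function.update_of_ne e]
        exact (key k e).symm
      · rw [Function.update_of_ne e, Function.update_of_ne f]
        exact hr.dis k l hkl

/-- a free vertex is not adjacent to one of the two vertices of a bad index -/
theorem MinRel.free {o : ι → Finset ℕ} (hm : MinRel W σ A o) (hN : HN W σ A) {i : ι}
    (hi : i ∈ Vb W σ A o) {x y : ℕ} (hxy : SP W σ i (o i) x y) {f : ℕ} (hf : f ∈ W)
    (hfo : ∀ j, f ∉ o j) : ¬ A x f ∨ ¬ A y f := by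
  by_contra hn
  push Not at hn
  obtain ⟨p, hp, hg⟩ := serve hN.sym hxy hf hn.1 hn.2
  refine hm.no_imp hi (rel_update hm.rel hg ?_) ?_ ?_
  · intro v hv
    have := hp hv
    simp only [mem_insert, mem_singleton] at this
    rcases this with rfl | rfl | rfl
    · exact Or.inl hxy.ma
    · exact Or.inl hxy.mb
    · exact Or.inr hfo
  · rw [Function.update_self]; exact hg
  · intro k hk
    have hki : k ≠ i := fun e => hk (e ▸ hi)
    rw [Function.update_of_ne hki]
    by_contra hn'
    exact hk (mem_Vb.2 hn')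

end Pool.Agent.Helper878_bj
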