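import Pool.Agent.Helper878_bj.Rec

/-!
# The main argument
-/

set_option autoImplicit false
set_option linter.unusedSectionVars false

namespace Pool.Agent.Helper878_bj

open Finset Pool.Agent.Helper878_mm Pool.Agent.Helper878_bs
open Pool.Agent.Helper878_dcs (Assign)
open scoped Classical

variable {ι : Type} [DecidableEq ι] [Fintype ι]
variable {W : Finset ℕ} {σ : ι → ℕ → Fin 3} {A : ℕ → ℕ → Prop}

/-- The main argument. -/
theorem main_abs (hN : HN W σ A) (hn : 2 * Fintype.card ι + 1 ≤ W.card)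
    (hR : ∃ o, Rel W σ o) (hT : ∀ e ∈ W, Test W σ A e) :
    ∃ o : ι → Finset ℕ, (∀ i, Good W σ A i (o i)) ∧ ∀ i j, i ≠ j → Disjoint (o i) (o j) := by
  obtain ⟨o, hm⟩ := exists_min (A := A) hR
  by_cases hV : (Vb W σ A o).Nonempty
  swap
  · refine ⟨o, fun i => ?_, hm.rel.dis⟩
    by_contra hi
    exact hV ⟨i, mem_Vb.2 hi⟩
  obtain ⟨i, hi⟩ := hV
  -- a free vertex
  have hoc : ∀ i, (o i).card ≤ 2 := by
    intro i
    rcases hm.rel.opt i with ⟨c, _, _, h2⟩ | ⟨a, _, b, _, _, _, h2⟩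
    · rw [h2]; simp
    · rw [h2]; exact card_le_two
  obtain ⟨e, heW, heo⟩ : ∃ e ∈ W, ∀ j, e ∉ o j := by
    by_contra hno
    push Not at hno
    have h1 : W ⊆ univ.biUnion o := by
      intro w hw
      obtain ⟨j, hj⟩ := hno w hw
      exact mem_biUnion.2 ⟨j, mem_univ _, hj⟩
    have h2 := (card_le_card h1).trans (card_biUnion_le_card_mul _ _ 2 fun i _ => hoc i)
    rw [card_univ] at h2
    omega
  have heP : e ∈ Pe W σ e := mem_Pe.2 ⟨heW, fun l => rfl⟩
  -- a bad index is inside the classes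
  have hbadx : ∀ j ∈ Vb W σ A o, ∃ a b, SP W σ j (o j) a b ∧ a ∈ De W σ e ∧ b ∈ De W σ e ∧
      ((a ∈ Pe W σ e ∧ b ∈ Qe W σ e) ∨ (a ∈ Qe W σ e ∧ b ∈ Pe W σ e)) := by
    intro j hjV
    obtain ⟨a', b', hj', hnab⟩ := hN.ctx.bad (hm.rel.opt j) (mem_Vb.1 hjV)
    have hab := hN.opp a' hj'.ha b' hj'.hb hj'.ne hnab
    have hba : ∀ l, σ l a' = fl (σ l b') := fun l => by rw [hab l, fl_fl]
    refine ⟨a', b', hj', ?_⟩
    rcases hm.free hN hjV hj' heW heo with h4 | h4
    · have hne : a' ≠ e := fun h => heo j (h ▸ hj'.ma)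
      have h5 := hN.opp a' hj'.ha e heW hne h4
      have ha : a' ∈ Qe W σ e := mem_Qe.2 ⟨hj'.ha, fun l => by rw [h5 l, fl_fl]⟩
      have hb := (De_opp (Qe_sub ha) hj'.hb hab).2.2 ha
      exact ⟨Qe_sub ha, Pe_sub hb, Or.inr ⟨ha, hb⟩⟩
    · have hne : b' ≠ e := fun h => heo j (h ▸ hj'.mb)
      have h5 := hN.opp b' hj'.hb e heW hne h4
      have hb : b' ∈ Qe W σ e := mem_Qe.2 ⟨hj'.hb, fun l => by rw [h5 l, fl_fl]⟩
      have ha := (De_opp (Qe_sub hb) hj'.ha hba).2.2 hb
      exact ⟨Pe_sub ha, Qe_sub hb, Or.inl ⟨ha, hb⟩⟩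
  obtain ⟨x, y, hxy, hxD, hyD, -⟩ := hbadx i hi
  have hbade : ∀ j ∈ Vb W σ A o, σ j e ≠ 0 := by
    intro j hj h0
    obtain ⟨a, b, h1, h2, _⟩ := hbadx j hj
    have h3 := De_zero h2 h0
    rw [h1.h1] at h3
    exact absurd h3 (by decide)
  have hbad : ∀ j ∈ Vb W σ A o, T2 W σ e o j := by
    intro j hj
    obtain ⟨a, b, h1, _, _, h2 | h2⟩ := hbadx j hj
    · exact ⟨hbade j hj, a, h2.1, b, h2.2, h1.hs⟩
    · exact ⟨hbade j hj, b, h2.2, a, h2.1, by rw [h1.hs, pair_comm]⟩
  -- free vertices are in the classes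
  have hfree : ∀ f ∈ W, (∀ j, f ∉ o j) → f ∈ De W σ e := by
    intro f hf hfo
    rcases hm.free hN hi hxy hf hfo with h1 | h1
    · have hne : x ≠ f := fun h => hfo i (h ▸ hxy.ma)
      exact (De_opp hxD hf (hN.opp x hxy.ha f hf hne h1)).1
    · have hne : y ≠ f := fun h => hfo i (h ▸ hxy.mb)
      exact (De_opp hyD hf (hN.opp y hxy.hb f hf hne h1)).1
  -- a double exchange
  have hexch : ∀ j, j ∉ Vb W σ A o → ∀ s : Finset ℕ, Good W σ A j s →
      (∀ v ∈ s, v ∈ o j ∨ v = e) → ∀ c ∈ o j, c ∉ s → c ∉ De W σ e → False := by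
    intro j hjV s hgj hs c hc hcs hcD
    have hij : i ≠ j := fun h => hjV (h ▸ hi)
    have hcW : c ∈ W := opt_sub (hm.rel.opt j) hc
    obtain ⟨p, hp, hgi⟩ := serve hN.sym hxy hcW (out_adj hN hxD hcW hcD)
      (out_adj hN hyD hcW hcD)
    have hr1 : Rel W σ (Function.update o j s) := by
      refine rel_update hm.rel hgj ?_
      intro v hv
      rcases hs v hv with h | rfl
      · exact Or.inl h
      · exact Or.inr heo
    have hr2 : Rel W σ (Function.update (Function.update o j s) i p) := by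
      refine rel_update hr1 hgi ?_
      intro v hv
      have := hp hv
      simp only [mem_insert, mem_singleton] at this
      rw [Function.update_of_ne hij]
      rcases this with rfl | rfl | rfl
      · exact Or.inl hxy.ma
      · exact Or.inl hxy.mb
      · right
        intro l hl
        by_cases hlj : l = j
        · subst hlj
          rw [Function.update_self] at hl
          exact hcs hl
        · rw [Function.update_of_ne hlj] at hl
          exact disjoint_left.1 (hm.rel.dis l j hlj) hl hc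
    refine hm.no_imp hi hr2 (by rw [Function.update_self]; exact hgi) ?_
    intro k hk
    have hki : k ≠ i := fun h => hk (h ▸ hi)
    rw [Function.update_of_ne hki]
    by_cases hkj : k = j
    · rw [hkj, Function.update_self]; exact hgj
    · rw [Function.update_of_ne hkj]
      by_contra hn'
      exact hk (mem_Vb.2 hn')
  refine recombine hN (hbade i hi) hm.rel.dis (fun j => ?_) hfree (hT e heW)
  by_cases hjV : j ∈ Vb W σ A o
  · exact Or.inr (Or.inl (hbad j hjV))
  by_cases he0 : σ j e = 0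
  · -- a vertex in the classes
    have hge : Good W σ A j {e} := Or.inl ⟨e, heW, he0, rfl⟩
    have hD : ∀ c ∈ o j, c ∈ De W σ e := by
      intro c hc
      by_contra hcD
      refine hexch j hjV {e} hge (fun v hv => Or.inr (mem_singleton.1 hv)) c hc ?_ hcD
      rw [mem_singleton]
      exact fun h => heo j (h ▸ hc)
    rcases hm.rel.opt j with ⟨c, hc, h1, h2⟩ | ⟨a, ha, b, hb, h1, h2, h3⟩
    · rcases mem_De.1 (hD c (by rw [h2]; simp)) with h4 | h4
      · exact Or.inr (Or.inr (Or.inl (Or.inr ⟨he0, c, h4, h2⟩)))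
      · exact Or.inr (Or.inr (Or.inr (Or.inr ⟨he0, c, h4, h2⟩)))
    · have h4 := De_zero (hD a (by rw [h3]; simp)) he0
      rw [h1] at h4
      exact absurd h4 (by decide)
  rcases hm.rel.opt j with ⟨c, hc, h1, h2⟩ | ⟨a, ha, b, hb, h1, h2, h3⟩
  · exact Or.inl ⟨he0, c, hc, fun h => De_ne h he0 h1, h1, h2⟩
  have hj : SP W σ j (o j) a b := ⟨ha, hb, h1, h2, h3⟩
  have ha0 : σ j a ≠ 0 := by rw [h1]; decide
  have hb0 : σ j b ≠ 0 := by rw [h2]; decide
  have hab : σ j a ≠ σ j b := by rw [h1, h2]; decide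
  by_cases haD : a ∈ De W σ e
  · by_cases hbD : b ∈ De W σ e
    · refine Or.inr (Or.inl ⟨he0, ?_⟩)
      rcases mem_De.1 haD with haP | haQ
      · rcases mem_De.1 hbD with hbP | hbQ
        · exact absurd (((mem_Pe.1 haP).2 j).trans ((mem_Pe.1 hbP).2 j).symm) hab
        · exact ⟨a, haP, b, hbQ, h3⟩
      · rcases mem_De.1 hbD with hbP | hbQ
        · exact ⟨b, hbP, a, haQ, by rw [h3, pair_comm]⟩
        · exact absurd (((mem_Qe.1 haQ).2 j).trans ((mem_Qe.1 hbQ).2 j).symm) hab
    · rcases mem_De.1 haD with haP | haQ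
      · exact Or.inr (Or.inr (Or.inl (Or.inl ⟨he0, a, haP, b, hb, hbD, hb0, hab, h3⟩)))
      · exact Or.inr (Or.inr (Or.inr (Or.inl ⟨he0, a, haQ, b, hb, hbD, hb0, hab, h3⟩)))
  · by_cases hbD : b ∈ De W σ e
    · rcases mem_De.1 hbD with hbP | hbQ
      · exact Or.inr (Or.inr (Or.inl (Or.inl ⟨he0, b, hbP, a, ha, haD, ha0,
          fun h => hab h.symm, by rw [h3, pair_comm]⟩)))
      · exact Or.inr (Or.inr (Or.inr (Or.inl ⟨he0, b, hbQ, a, ha, haD, ha0,
          fun h => hab h.symm, by rw [h3, pair_comm]⟩)))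
    · exfalso
      by_cases h4 : σ j e = 1
      · refine hexch j hjV {e, b} (good_pair hN.sym heW hb he0 hb0 (by rw [h4, h2]; decide)
          (out_adj hN (Pe_sub heP) hb hbD)) ?_ a hj.ma ?_ haD
        · intro v hv
          simp only [mem_insert, mem_singleton] at hv
          rcases hv with rfl | rfl
          · exact Or.inr rfl
          · exact Or.inl hj.mb
        · simp only [mem_insert, mem_singleton, not_or]
          exact ⟨fun h => heo j (h ▸ hj.ma), hj.ne⟩
      · refine hexch j hjV {e, a} (good_pair hN.sym heW ha he0 ha0 (by rw [h1]; exact h4)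
          (out_adj hN (Pe_sub heP) ha haD)) ?_ b hj.mb ?_ hbD
        · intro v hv
          simp only [mem_insert, mem_singleton] at hv
          rcases hv with rfl | rfl
          · exact Or.inr rfl
          · exact Or.inl hj.ma
        · simp only [mem_insert, mem_singleton, not_or]
          exact ⟨fun h => heo j (h ▸ hj.mb), hj.ne.symm⟩

end Pool.Agent.Helper878_bj
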