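import Pool.Agent.Helper878_bj.Main
import Pool.Agent.Helper878_bh.Cor

/-!
# The promise on graphs without independent triples
-/

set_option autoImplicit false
set_option linter.unusedSectionVars false

namespace Pool.Agent.Helper878_bj

open Finset Pool.Agent.NPC Pool.Agent.H671R2.SF Pool.Agent.Helper878_dcs Pool.Agent.Helper878_mm
open Pool.Agent.Helper878_bs Pool.Agent.Helper878_bg Pool.Agent.Helper878_bh
open scoped Classical

variable {I : Inst}

/-- On `3P_1`-free graphs it is enough that, of two nonadjacent nonterminals outside `S`, both or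
none alone make a hard terminal set outside `T` connected. -/
theorem uniform_of_joins {t : ℕ} (hw : WellFormed I) (hF : Free threeP1 (graph I.1 I.2.1))
    (S U : Finset {v // v ∈ I.1}) (T : Finset (List ℕ)) (hc : S.card + T.card ≤ t)
    (hU : ∀ v, v ∈ U ↔ v ∉ S ∧ ∀ Z ∈ I.2.2, v.1 ∉ Z)
    (h : ∀ Z, Hard I Z → Z ∉ T → ∀ a ∈ U, ∀ b ∈ U, a ≠ b → ¬ (graph I.1 I.2.1).Adj a b →
      (Joins I Z a ↔ Joins I Z b)) : Uniform t I := by
  have hK : KP (GG I.2.1) I.1.toFinset := (free3_iff.1 hF).kp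
  refine ⟨S, U, T, hc, hU, fun Z hZ hZT => ⟨?_, fun a ha b hb hne hab => ?_⟩⟩
  · exact compact_seen hw hK hZ.1 hZ.2.1 (fun v hv => ((hU v).1 hv).2 Z hZ.1)
      fun u v w _ _ _ h1 h2 h3 => tri hF u v w h1 h2 h3
  by_cases hja : Joins I Z a
  · exact Or.inr ⟨hja, (h Z hZ hZT a ha b hb hne hab).1 hja⟩
  have hjb : ¬ Joins I Z b := fun hj => hja ((h Z hZ hZT a ha b hb hne hab).2 hj)
  left
  have hVZ : ∀ z ∈ Z, z ∈ I.1 := (hw.2.2 Z hZ.1).2
  have hZU := toFinset_subset hw hZ.1
  have hd := ndc hw hK hZ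
  rw [apart_iff hw hK hZ]
  intro x hx y hy hax hby hxy
  rw [← List.mem_toFinset] at hx hy
  have hne' : Z.toFinset.Nonempty := ⟨x, hx⟩
  obtain ⟨z, hz, hn⟩ := exists_not_near hne' hd x hx
  have hnf : ∀ v ∈ U, v.1 ∈ freeV I.1 I.2.2 := fun v hv => mem_freeV.2 ⟨v.2, ((hU v).1 hv).2⟩
  have hZn : ∀ v ∈ U, v.1 ∉ Z := fun v hv => ((hU v).1 hv).2 Z hZ.1
  have hZd : Z ∈ discs I.2.1 I.2.2 := (mem_hardL.1 ((mem_hards hw hK).2 hZ)).1
  -- a vertex seeing both classes would connect `Z`
  have key : ∀ v ∈ U, ¬ Joins I Z v → ∀ u ∈ Z.toFinset, near (GG I.2.1) Z.toFinset x u →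
      (GG I.2.1).Adj v.1 u → ¬ (GG I.2.1).Adj v.1 z := by
    intro v hv hj u hu hxu hvu hvz
    refine hj ((joins_iff hw hK hZ (hnf v hv)).2 ?_)
    have hcon : Con (GG I.2.1) (Z.toFinset ∪ {v.1}) := by
      refine con_single hne' fun z' hz' hm => ?_
      by_cases h1 : near (GG I.2.1) Z.toFinset x z'
      · exact miss_self hu (miss_congr hK hZU hne' hd hz' hu
          (near_trans hK hZU hne' hd hz' hx hu (near_symm h1) hxu) hm) hvu
      · have h2 : near (GG I.2.1) Z.toFinset z z' := by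
          by_contra h3
          have hzV := hVZ z (List.mem_toFinset.1 hz)
          have hxV := hVZ x (List.mem_toFinset.1 hx)
          have hzV' := hVZ z' (List.mem_toFinset.1 hz')
          rcases tri hF ⟨x, hxV⟩ ⟨z, hzV⟩ ⟨z', hzV'⟩
            (fun e => hn ((show x = z from congrArg Subtype.val e) ▸ near_refl _ _))
            (fun e => h1 ((show x = z' from congrArg Subtype.val e) ▸ near_refl _ _))
            (fun e => h3 ((show z = z' from congrArg Subtype.val e) ▸ near_refl _ _)) with h4 | h4 | h4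
          · exact hn (near_of_adj (graph_adj.1 h4))
          · exact h1 (near_of_adj (graph_adj.1 h4))
          · exact h3 (near_of_adj (graph_adj.1 h4))
        exact miss_self hz (miss_congr hK hZU hne' hd hz' hz (near_symm h2) hm) hvz
    have h5 := (mem_joinL (lctx hw hK) hZd (v := v.1)).2 ⟨hnf v hv, hcon⟩
    unfold joinL at h5
    rw [List.mem_filter, Bool.not_eq_true'] at h5
    exact h5.2
  have h1 := key a ha hja x hx (near_refl _ _) hax
  have h2 := key b hb hjb y hy hxy hby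
  have hzV := hVZ z (List.mem_toFinset.1 hz)
  rw [List.mem_toFinset] at hz
  rcases tri hF a b ⟨z, hzV⟩ hne (fun e => hZn a ha (by rw [e]; exact hz))
    (fun e => hZn b hb (by rw [e]; exact hz)) with h4 | h4 | h4
  · exact hab h4
  · exact h1 (graph_adj.1 h4)
  · exact h2 (graph_adj.1 h4)

end Pool.Agent.Helper878_bj
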