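import Pool.Agent.Helper878_bj.Abs

/-!
# The two classes of a direction
-/

set_option autoImplicit false
set_option linter.unusedSectionVars false

namespace Pool.Agent.Helper878_bj

open Finset Pool.Agent.Helper878_mm Pool.Agent.Helper878_bs
open Pool.Agent.Helper878_dcs (Assign)
open scoped Classical

variable {ι : Type} [DecidableEq ι] [Fintype ι]
variable {W : Finset ℕ} {σ : ι → ℕ → Fin 3} {A : ℕ → ℕ → Prop}

/-- both classes of a direction -/
noncomputable def De (W : Finset ℕ) (σ : ι → ℕ → Fin 3) (e : ℕ) : Finset ℕ := Pe W σ e ∪ Qe W σ e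

theorem mem_De {e w : ℕ} : w ∈ De W σ e ↔ w ∈ Pe W σ e ∨ w ∈ Qe W σ e := mem_union

theorem De_sub {e w : ℕ} (h : w ∈ De W σ e) : w ∈ W := by
  rcases mem_De.1 h with h | h
  · exact (mem_Pe.1 h).1
  · exact (mem_Qe.1 h).1

/-- the classes are disjoint -/
theorem disj_PQ {e w : ℕ} {i : ι} (h0 : σ i e ≠ 0) (h : w ∈ Pe W σ e) : w ∉ Qe W σ e := fun h' =>
  fl_ne h0 (((mem_Qe.1 h').2 i).symm.trans ((mem_Pe.1 h).2 i))

theorem De_ne {e w : ℕ} (h : w ∈ De W σ e) {i : ι} (h0 : σ i e ≠ 0) : σ i w ≠ 0 := by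
  rcases mem_De.1 h with h | h
  · rw [(mem_Pe.1 h).2 i]; exact h0
  · rw [(mem_Qe.1 h).2 i, Ne, fl_zero]; exact h0

theorem De_zero {e w : ℕ} (h : w ∈ De W σ e) {i : ι} (h0 : σ i e = 0) : σ i w = 0 := by
  rcases mem_De.1 h with h | h
  · rw [(mem_Pe.1 h).2 i]; exact h0
  · rw [(mem_Qe.1 h).2 i, fl_zero]; exact h0

/-- a vertex opposite to a vertex of a class everywhere is in the other class -/
theorem De_opp {e v w : ℕ} (hv : v ∈ De W σ e) (hw : w ∈ W)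
    (h : ∀ i, σ i w = fl (σ i v)) : w ∈ De W σ e ∧ (v ∈ Pe W σ e → w ∈ Qe W σ e) ∧
      (v ∈ Qe W σ e → w ∈ Pe W σ e) := by
  have h1 : v ∈ Pe W σ e → w ∈ Qe W σ e := fun hP => mem_Qe.2 ⟨hw, fun i => by
    rw [h i, (mem_Pe.1 hP).2 i]⟩
  have h2 : v ∈ Qe W σ e → w ∈ Pe W σ e := fun hQ => mem_Pe.2 ⟨hw, fun i => by
    rw [h i, (mem_Qe.1 hQ).2 i, fl_fl]⟩
  refine ⟨?_, h1, h2⟩
  rcases mem_De.1 hv with hv | hv
  · exact mem_De.2 (Or.inr (h1 hv))
  · exact mem_De.2 (Or.inl (h2 hv))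

/-- a vertex outside the classes is adjacent to every vertex of the classes -/
theorem out_adj (hN : HN W σ A) {e v w : ℕ} (hv : v ∈ De W σ e)
    (hw : w ∈ W) (hwD : w ∉ De W σ e) : A v w := by
  by_contra hn
  have hne : v ≠ w := fun h => hwD (h ▸ hv)
  exact hwD (De_opp hv hw (hN.opp v (De_sub hv) w hw hne hn)).1

end Pool.Agent.Helper878_bj
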