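import Pool.Agent.Helper878_bh.Defs

/-!
# Uniform inputs: definitions
-/

set_option autoImplicit false

namespace Pool.Agent.Helper878_bj

open Pool.Agent.Helper878_dcs Pool.Agent.Helper878_bh

/-- The number of hard terminal sets. -/
noncomputable def numHard (I : Inst) : ℕ := Nat.card {Z : List ℕ // Hard I Z}

/-- The vertex `v` alone makes the terminal set `Z` connected. -/
def Joins (I : Inst) (Z : List ℕ) (v : {v // v ∈ I.1}) : Prop :=
  ((graph I.1 I.2.1).induce (insert v (vset I.1 Z))).Connected

/-- The vertices `a` and `b` see different components of the terminal set `Z`: no neighbour of `a`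
in `Z` and neighbour of `b` in `Z` lie in the same component of the subgraph induced by `Z`. -/
def Apart (I : Inst) (Z : List ℕ) (a b : {v // v ∈ I.1}) : Prop :=
  ∀ x y : vset I.1 Z, (graph I.1 I.2.1).Adj a x.1 → (graph I.1 I.2.1).Adj b y.1 →
    ¬ ((graph I.1 I.2.1).induce (vset I.1 Z)).Reachable x y

/-- The vertices `a` and `b` behave alike with respect to `Z`: they see different components of
`Z`, or each of them alone makes `Z` connected. -/
def Alike (I : Inst) (Z : List ℕ) (a b : {v // v ∈ I.1}) : Prop :=
  Apart I Z a b ∨ (Joins I Z a ∧ Joins I Z b)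

/-- There are a set `S` of vertices and a set `T` of terminal sets, at most `t` elements in all,
such that, for the set `U` of the nonterminals outside `S` and every hard terminal set `Z` outside
`T`: the set `Z` is compact and is seen by all of `U`, and any two nonadjacent vertices of `U`
behave alike with respect to `Z`. -/
def Uniform (t : ℕ) (I : Inst) : Prop :=
  ∃ (S U : Finset {v // v ∈ I.1}) (T : Finset (List ℕ)), S.card + T.card ≤ t ∧
    (∀ v, v ∈ U ↔ v ∉ S ∧ ∀ Z ∈ I.2.2, v.1 ∉ Z) ∧
    ∀ Z, Hard I Z → Z ∉ T → (Compact I Z ∧ Seen I U Z) ∧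
      ∀ a ∈ U, ∀ b ∈ U, a ≠ b → ¬ (graph I.1 I.2.1).Adj a b → Alike I Z a b

end Pool.Agent.Helper878_bj
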