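import Pool.Agent.Helper878_bj.Abs2
import Pool.Agent.Helper878_bh.Main

/-!
# The test on lists
-/

set_option autoImplicit false
set_option linter.unusedSectionVars false

namespace Pool.Agent.Helper878_bj

open Finset Pool.Agent.NPC Pool.Agent.H671R2.SF Pool.Agent.Helper878_dcs Pool.Agent.Helper878_mm
open Pool.Agent.Helper878_bs Pool.Agent.Helper878_bg Pool.Agent.Helper878_bh
open Pool.Agent.Helper878_c5 (an bn nodC)
open scoped Classical

/-- the same labels -/
def smB (E : List (ℕ × ℕ)) (J : List (List ℕ)) (e w : ℕ) : Bool :=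
  J.all fun Z => decide (zB E Z w = zB E Z e) && (zB E Z w || decide (s1B E Z w = s1B E Z e))

/-- the opposite labels -/
def opB (E : List (ℕ × ℕ)) (J : List (List ℕ)) (e w : ℕ) : Bool :=
  J.all fun Z => decide (zB E Z w = zB E Z e) && (zB E Z w || !decide (s1B E Z w = s1B E Z e))

def lnkT (E : List (ℕ × ℕ)) (W : List ℕ) (J : List (List ℕ)) (e : ℕ) :
    List ((ℕ × ℕ) × (ℕ × ℕ)) :=
  (((qB E J e ×ˢ W).filter fun p => !smB E J e p.2 && !opB E J e p.2).map fun p =>
    (an p.1, bn p.2)) ++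
    ((W ×ˢ W).filter fun p => !decide (p.1 = p.2) && (smB E J e p.1 && (opB E J e p.2 &&
      adj E p.1 p.2))).map fun p => (bn p.1, bn p.2)

/-- the test for one direction -/
def tstU (E : List (ℕ × ℕ)) (W : List ℕ) (J : List (List ℕ)) (e : ℕ) : Bool :=
  decide ((qB E J e).length ≤ (maxM (nodC W (qB E J e)) (lnkT E W J e)).length)

/-- the whole test -/
def coreU (E : List (ℕ × ℕ)) (W : List ℕ) (J : List (List ℕ)) : Bool :=
  coreB E W J && W.all fun e => tstU E W J e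

section
variable {γ : Type} [TEnc γ] {E : γ → List (ℕ × ℕ)} {W : γ → List ℕ} {J : γ → List (List ℕ)}
  {u v : γ → ℕ}

@[fun_prop]
theorem poly_smB (hE : Poly E) (hJ : Poly J) (hu : Poly u) (hv : Poly v) :
    Poly (fun x => smB (E x) (J x) (u x) (v x)) := by
  unfold smB; fun_prop

@[fun_prop]
theorem poly_opB (hE : Poly E) (hJ : Poly J) (hu : Poly u) (hv : Poly v) :
    Poly (fun x => opB (E x) (J x) (u x) (v x)) := by
  unfold opB; fun_prop

@[fun_prop]
theorem poly_lnkT (hE : Poly E) (hW : Poly W) (hJ : Poly J) (hu : Poly u) :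
    Poly (fun x => lnkT (E x) (W x) (J x) (u x)) := by
  unfold lnkT; fun_prop

@[fun_prop]
theorem poly_tstU (hE : Poly E) (hW : Poly W) (hJ : Poly J) (hu : Poly u) :
    Poly (fun x => tstU (E x) (W x) (J x) (u x)) := by
  unfold tstU; fun_prop

@[fun_prop]
theorem poly_coreU (hE : Poly E) (hW : Poly W) (hJ : Poly J) :
    Poly (fun x => coreU (E x) (W x) (J x)) := by
  unfold coreU; fun_prop

end

variable {E : List (ℕ × ℕ)} {U : Finset ℕ} {W : List ℕ} {J : List (List ℕ)}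

theorem sm_iff {e w : ℕ} : smB E J e w = true ↔ ∀ i : {Z // Z ∈ J}, sgJ E J i w = sgJ E J i e := by
  unfold smB
  rw [List.all_eq_true]
  have key : ∀ Z, (decide (zB E Z w = zB E Z e) && (zB E Z w ||
      decide (s1B E Z w = s1B E Z e))) = true ↔ sg3 E Z w = sg3 E Z e := by
    intro Z
    unfold sg3
    generalize zB E Z w = a
    generalize zB E Z e = b
    generalize s1B E Z w = c
    generalize s1B E Z e = d
    revert a b c d
    decide
  constructor
  · intro h i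
    exact (key i.1).1 (h i.1 i.2)
  · intro h Z hZ
    exact (key Z).2 (h ⟨Z, hZ⟩)

theorem op_iff {e w : ℕ} : opB E J e w = true ↔
    ∀ i : {Z // Z ∈ J}, sgJ E J i w = fl (sgJ E J i e) := by
  unfold opB
  rw [List.all_eq_true]
  have key : ∀ Z, (decide (zB E Z w = zB E Z e) && (zB E Z w ||
      !decide (s1B E Z w = s1B E Z e))) = true ↔ sg3 E Z w = fl (sg3 E Z e) := by
    intro Z
    unfold sg3
    generalize zB E Z w = a
    generalize zB E Z e = b
    generalize s1B E Z w = c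
    generalize s1B E Z e = d
    revert a b c d
    decide
  constructor
  · intro h i
    exact (key i.1).1 (h i.1 i.2)
  · intro h Z hZ
    exact (key Z).2 (h ⟨Z, hZ⟩)

theorem smB_iff {e w : ℕ} (hw : w ∈ W) : smB E J e w = true ↔ w ∈ Pe W.toFinset (sgJ E J) e := by
  rw [mem_Pe, sm_iff, List.mem_toFinset]
  exact ⟨fun h => ⟨hw, h⟩, fun h => h.2⟩

theorem opB_iff {e w : ℕ} (hw : w ∈ W) : opB E J e w = true ↔ w ∈ Qe W.toFinset (sgJ E J) e := by
  rw [mem_Qe, op_iff, List.mem_toFinset]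
  exact ⟨fun h => ⟨hw, h⟩, fun h => h.2⟩

theorem mem_qB {Z : List ℕ} {e : ℕ} : Z ∈ qB E J e ↔ Z ∈ J ∧ sg3 E Z e ≠ 0 := by
  unfold qB
  rw [List.mem_filter, Ne, sg3_zero, Bool.not_eq_true, Bool.not_eq_true']

theorem tstU_iff (h : LC W J) (e : ℕ) :
    tstU E W J e = true ↔ Test W.toFinset (sgJ E J) (GG E).Adj e := by
  unfold tstU Test
  rw [decide_eq_true_eq, ← card_q h.hJn e]
  symm
  have hmem : ∀ i : {Z // Z ∈ J}, i ∈ (univ : Finset {Z // Z ∈ J}).filter
      (fun i => sgJ E J i e ≠ 0) ↔ i.1 ∈ qB E J e := by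
    intro i
    rw [mem_filter, mem_qB]
    exact ⟨fun h => ⟨i.2, h.2⟩, fun h => ⟨mem_univ _, h.2⟩⟩
  refine assign_iff _ _ _ W.toFinset (fun i => an i.1) bn ?_ ?_ ?_ (nodC W (qB E J e))
    (lnkT E W J e) ?_ ?_ ?_ ?_ ?_
  · intro i _ j _ hij
    exact Subtype.ext (h.nm_inj i.2 j.2 (Prod.mk.inj hij).1)
  · intro a b hab
    exact (Prod.mk.inj hab).1
  · intro i _ w hw
    exact absurd (Prod.mk.inj hw).2 (by decide)
  · unfold nodC
    rw [List.nodup_append]
    refine ⟨List.Nodup.map_on (fun Z hZ Z' hZ' he => h.nm_inj (mem_qB.1 hZ).1 (mem_qB.1 hZ').1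
      (Prod.mk.inj he).1) (h.hJn.filter _), h.hWn.map (fun a b hab => (Prod.mk.inj hab).1), ?_⟩
    intro a ha b hb hab
    obtain ⟨Z, _, rfl⟩ := List.mem_map.1 ha
    obtain ⟨w, _, rfl⟩ := List.mem_map.1 hb
    exact absurd (Prod.mk.inj hab).2 (by decide)
  · intro v
    unfold nodC
    rw [List.mem_append, List.mem_map, List.mem_map]
    refine or_congr ?_ ?_
    · constructor
      · rintro ⟨Z, hZ, rfl⟩
        exact ⟨⟨Z, (mem_qB.1 hZ).1⟩, (hmem _).2 hZ, rfl⟩
      · rintro ⟨i, hi, hv⟩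
        exact ⟨i.1, (hmem i).1 hi, hv.symm⟩
    · constructor
      · rintro ⟨w, hw, rfl⟩
        exact ⟨w, List.mem_toFinset.2 hw, rfl⟩
      · rintro ⟨w, hw, rfl⟩
        exact ⟨w, List.mem_toFinset.1 hw, rfl⟩
  · intro x y
    unfold lnkT
    rw [List.mem_append, List.mem_map, List.mem_map]
    refine or_congr ?_ ?_
    · constructor
      · rintro ⟨⟨Z, w⟩, hm, he⟩
        rw [List.mem_filter, List.mem_product] at hm
        obtain ⟨⟨hZ, hw⟩, hz⟩ := hm
        dsimp only at hZ hw hz he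
        rw [Bool.and_eq_true, Bool.not_eq_true', Bool.not_eq_true', ← Bool.not_eq_true,
          ← Bool.not_eq_true, smB_iff hw, opB_iff hw] at hz
        exact ⟨⟨Z, (mem_qB.1 hZ).1⟩, (hmem _).2 hZ, w, List.mem_toFinset.2 hw,
          (Prod.mk.inj he).1.symm, (Prod.mk.inj he).2.symm, List.mem_toFinset.2 hw, hz.1, hz.2⟩
      · rintro ⟨i, hi, w, hw, h1, h2, h3, h4, h5⟩
        have hw' := List.mem_toFinset.1 hw
        refine ⟨(i.1, w), List.mem_filter.2 ⟨List.mem_product.2 ⟨(hmem i).1 hi, hw'⟩, ?_⟩, ?_⟩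
        · dsimp only
          rw [Bool.and_eq_true, Bool.not_eq_true', Bool.not_eq_true', ← Bool.not_eq_true,
            ← Bool.not_eq_true, smB_iff hw', opB_iff hw']
          exact ⟨h4, h5⟩
        · rw [h1, h2]
    · constructor
      · rintro ⟨⟨w, w'⟩, hm, he⟩
        rw [List.mem_filter, List.mem_product] at hm
        obtain ⟨⟨hw, hw'⟩, hz⟩ := hm
        dsimp only at hw hw' hz he
        rw [Bool.and_eq_true, Bool.and_eq_true, Bool.and_eq_true, smB_iff hw, opB_iff hw',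
          adj_iff, Bool.not_eq_true', decide_eq_false_iff_not] at hz
        exact ⟨w, List.mem_toFinset.2 hw, w', List.mem_toFinset.2 hw', (Prod.mk.inj he).1.symm,
          (Prod.mk.inj he).2.symm, hz.1, hz.2.1, hz.2.2.1, hz.2.2.2⟩
      · rintro ⟨w, hw, w', hw', h1, h2, h3, h4, h5, h6⟩
        rw [List.mem_toFinset] at hw hw'
        refine ⟨(w, w'), List.mem_filter.2 ⟨List.mem_product.2 ⟨hw, hw'⟩, ?_⟩, ?_⟩
        · dsimp only
          rw [Bool.and_eq_true, Bool.and_eq_true, Bool.and_eq_true, smB_iff hw, opB_iff hw',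
            adj_iff, Bool.not_eq_true', decide_eq_false_iff_not]
          exact ⟨h3, h4, h5, h6⟩
        · rw [h1, h2]
  · intro i w hw
    exact hw.1
  · intro a b hab
    exact ⟨(mem_Pe.1 hab.1).1, (mem_Qe.1 hab.2.1).1⟩

/-- the tests are necessary -/
theorem test_of_good {ι : Type} [DecidableEq ι] [Fintype ι] {W : Finset ℕ} {σ : ι → ℕ → Fin 3}
    {A : ℕ → ℕ → Prop} (hs : ∀ a b, A a b → A b a) {o : ι → Finset ℕ}
    (ho : ∀ i, Good W σ A i (o i)) (hd : ∀ i j, i ≠ j → Disjoint (o i) (o j)) (e : ℕ) :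
    Test W σ A e := by
  have hex : ∀ i, σ i e ≠ 0 → ∃ s ⊆ o i, (∃ w, s = {w} ∧ w ∈ W ∧ w ∉ Pe W σ e ∧
      w ∉ Qe W σ e) ∨ ∃ a b, a ≠ b ∧ s = {a, b} ∧ a ∈ Pe W σ e ∧ b ∈ Qe W σ e ∧ A a b := by
    intro i hi
    have hout : ∀ w, w ∈ W → w ∉ De W σ e → w ∉ Pe W σ e ∧ w ∉ Qe W σ e := fun w _ h =>
      ⟨fun h' => h (Pe_sub h'), fun h' => h (Qe_sub h')⟩
    rcases ho i with ⟨c, hc, h1, h2⟩ | ⟨a, ha, b, hb, h1, h2, h3, h4⟩
    · exact ⟨{c}, by rw [h2], Or.inl ⟨c, rfl, hc, hout c hc fun h => De_ne h hi h1⟩⟩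
    · have hab : a ≠ b := by
        rintro rfl
        rw [h1] at h2
        exact absurd h2 (by decide)
      by_cases haD : a ∈ De W σ e
      · by_cases hbD : b ∈ De W σ e
        · refine ⟨{a, b}, by rw [h4], Or.inr ?_⟩
          have hl : σ i a ≠ σ i b := by rw [h1, h2]; decide
          rcases mem_De.1 haD with haP | haQ
          · rcases mem_De.1 hbD with hbP | hbQ
            · exact absurd (((mem_Pe.1 haP).2 i).trans ((mem_Pe.1 hbP).2 i).symm) hl
            · exact ⟨a, b, hab, rfl, haP, hbQ, h3⟩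
          · rcases mem_De.1 hbD with hbP | hbQ
            · exact ⟨b, a, hab.symm, pair_comm a b, hbP, haQ, hs _ _ h3⟩
            · exact absurd (((mem_Qe.1 haQ).2 i).trans ((mem_Qe.1 hbQ).2 i).symm) hl
        · exact ⟨{b}, by rw [h4]; simp, Or.inl ⟨b, rfl, hb, hout b hb hbD⟩⟩
      · exact ⟨{a}, by rw [h4]; simp, Or.inl ⟨a, rfl, ha, hout a ha haD⟩⟩
  choose! g hg1 hg2 using hex
  refine ⟨g, fun i hi j hj hij => ?_, fun i hi => ?_⟩
  · exact disjoint_of_subset_left (hg1 i (mem_filter.1 hi).2)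
      (disjoint_of_subset_right (hg1 j (mem_filter.1 hj).2) (hd i j hij))
  · exact hg2 i (mem_filter.1 hi).2

/-- `a` and `b` see different classes -/
def Apt (E : List (ℕ × ℕ)) (Z : List ℕ) (a b : ℕ) : Prop :=
  ∀ x ∈ Z, ∀ y ∈ Z, (GG E).Adj a x → (GG E).Adj b y → ¬ near (GG E) Z.toFinset x y

theorem Apt.symm {Z : List ℕ} {a b : ℕ} (h : Apt E Z a b) : Apt E Z b a :=
  fun x hx y hy h1 h2 hn => h y hy x hx h2 h1 (near_symm hn)

section
variable (h : TD E U W J) {Z : List ℕ} (hZ : Z ∈ J)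
include h hZ

theorem apt_ne {a b : ℕ} (hb : b ∈ W) (hab : Apt E Z a b) : sg3 E Z a ≠ 0 := by
  have hK := h.lc.hK
  have hU := h.lc.hJU Z hZ
  have hne := h.ne' hZ
  have hd := h.lc.hdc Z hZ
  have h0 := h.nmm hZ
  intro hz
  rw [sg3_zero] at hz
  unfold zB at hz
  rw [Bool.and_eq_true, h.one_iff, h.two_iff] at hz
  obtain ⟨h1, z', hz', h2, h3⟩ := hz
  obtain ⟨zb, hzb, hbz⟩ := h.dom Z hZ b hb
  have hzb' := List.mem_toFinset.2 hzb
  unfold miss at h1 h3
  push Not at h1 h3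
  obtain ⟨x1, hx1, hn1, ha1⟩ := h1
  obtain ⟨x2, hx2, hn2, ha2⟩ := h3
  by_cases hn : near (GG E) Z.toFinset (nm Z) zb
  · exact hab x1 (List.mem_toFinset.1 hx1) zb hzb ha1 hbz
      (near_trans hK hU hne hd hx1 h0 hzb' (near_symm hn1) hn)
  · exact hab x2 (List.mem_toFinset.1 hx2) zb hzb ha2 hbz
      (near_trans hK hU hne hd hx2 hz' hzb' (near_symm hn2) (h.two hZ h0 hz' hzb' h2 hn))

theorem apt_fl {a b : ℕ} (ha : a ∈ W) (hb : b ∈ W) (hab : Apt E Z a b) :
    sg3 E Z b = fl (sg3 E Z a) := by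
  have hK := h.lc.hK
  have hU := h.lc.hJU Z hZ
  have hne := h.ne' hZ
  have hd := h.lc.hdc Z hZ
  have h0 := h.nmm hZ
  have ha0 := apt_ne h hZ hb hab
  have hb0 := apt_ne h hZ ha hab.symm
  refine eq_fl ha0 hb0 fun he => ?_
  rcases fin3 (sg3 E Z a) with e | e | e
  · exact ha0 e
  · rw [e] at he
    have h1 := (sg3_one.1 e).2
    have h2 := (sg3_one.1 he.symm).2
    rw [h.one_iff] at h1 h2
    unfold miss at h1 h2
    push Not at h1 h2
    obtain ⟨x1, hx1, hn1, ha1⟩ := h1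
    obtain ⟨x2, hx2, hn2, ha2⟩ := h2
    exact hab x1 (List.mem_toFinset.1 hx1) x2 (List.mem_toFinset.1 hx2) ha1 ha2
      (near_trans hK hU hne hd hx1 h0 hx2 (near_symm hn1) hn2)
  · rw [e] at he
    have h1 := (sg3_two.1 e).2
    have h2 := (sg3_two.1 he.symm).2
    rw [← Bool.not_eq_true, h.one_iff, not_not] at h1 h2
    obtain ⟨za, hza, haz⟩ := h.dom Z hZ a ha
    obtain ⟨zb, hzb, hbz⟩ := h.dom Z hZ b hb
    have hza' := List.mem_toFinset.2 hza
    have hzb' := List.mem_toFinset.2 hzb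
    exact hab za hza zb hzb haz hbz (h.two hZ h0 hza' hzb' (fun hn => h1 za hza' hn haz)
      fun hn => h2 zb hzb' hn hbz)

/-- a connecting vertex sees both classes -/
theorem zero_of_con {c : ℕ} (hc : c ∈ W) (hcon : Con (GG E) (Z.toFinset ∪ {c})) :
    sg3 E Z c = 0 := by
  obtain ⟨s, hs, hg⟩ := h.con_good hZ (o := {c})
    (Finset.singleton_subset_iff.2 (List.mem_toFinset.2 hc)) hcon
  rcases hg with ⟨c', _, h1, h2⟩ | ⟨a, _, b, _, h1, h2, _, h4⟩
  · have : c' ∈ ({c} : Finset ℕ) := hs (by rw [h2]; simp)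
    rw [mem_singleton] at this
    exact this ▸ h1
  · have ha : a ∈ ({c} : Finset ℕ) := hs (by rw [h4]; simp)
    have hb : b ∈ ({c} : Finset ℕ) := hs (by rw [h4]; simp)
    rw [mem_singleton] at ha hb
    have h1' : sg3 E Z a = 1 := h1
    have h2' : sg3 E Z b = 2 := h2
    rw [ha] at h1'
    rw [hb, h1'] at h2'
    exact absurd h2' (by decide)

end

/-- the promise for pairs -/
def Pr (E : List (ℕ × ℕ)) (W : Finset ℕ) (J : List (List ℕ)) : Prop :=
  ∀ a ∈ W, ∀ b ∈ W, a ≠ b → ¬ (GG E).Adj a b → ∀ Z ∈ J,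
    Apt E Z a b ∨ (discB E (a :: Z) = false ∧ discB E (b :: Z) = false)

theorem hn_of (h : TD E U W J) (hp : Pr E W.toFinset J) :
    HN W.toFinset (sgJ E J) (GG E).Adj where
  sym := fun a b hab => hab.symm
  opp := by
    intro a ha b hb hne hab i
    have haW := List.mem_toFinset.1 ha
    have hbW := List.mem_toFinset.1 hb
    rcases hp a ha b hb hne hab i.1 i.2 with h1 | ⟨h1, h2⟩
    · exact apt_fl h i.2 haW hbW h1
    · have key : ∀ c ∈ W, discB E (c :: i.1) = false → sg3 E i.1 c = 0 := by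
        intro c hc hd
        refine zero_of_con h i.2 hc ?_
        have := (mem_joinL h.lc i.2 (v := c)).1 (List.mem_filter.2 ⟨hc, by rw [hd]; rfl⟩)
        exact this.2
      show sg3 E i.1 b = fl (sg3 E i.1 a)
      rw [key a haW h1, key b hbW h2]
      rfl

/-- correctness of the test -/
theorem coreU_iff (h : TD E U W J) (hN : HN W.toFinset (sgJ E J) (GG E).Adj)
    (hn : 2 * J.length + 1 ≤ W.length) :
    coreU E W J = true ↔ Feas (GG E) W.toFinset (Zf J) := by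
  have hlc := h.toLC
  rw [h.feas_good]
  unfold coreU Sol
  rw [Bool.and_eq_true, coreB_iff hlc, List.all_eq_true]
  constructor
  · rintro ⟨⟨o, h1, h2⟩, h3⟩
    refine main_abs hN ?_ ⟨o, h1, h2⟩ fun e he => (tstU_iff hlc e).1
      (h3 e (List.mem_toFinset.1 he))
    rw [card_J h.lc.hJn, List.toFinset_card_of_nodup h.lc.hWn]
    exact hn
  · rintro ⟨o, h1, h2⟩
    exact ⟨⟨o, fun i => (h1 i).isOpt, h2⟩, fun e _ => (tstU_iff hlc e).2
      (test_of_good (fun a b hab => hab.symm) h1 h2 e)⟩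

end Pool.Agent.Helper878_bj
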