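import Pool.Agent.Helper878_bj.TopU
import Pool.Agent.Helper878_bj.Defs

/-!
# The whole algorithm
-/

set_option autoImplicit false
set_option linter.unusedSectionVars false

namespace Pool.Agent.Helper878_bj

open Finset Pool.Agent.NPC Pool.Agent.H671R2.SF Pool.Agent.Helper878_dcs Pool.Agent.Helper878_mm
open Pool.Agent.Helper878_bs Pool.Agent.Helper878_bg Pool.Agent.Helper878_bh
open scoped Classical

variable {I : Inst}

theorem numHard_eq (hw : WellFormed I) (hK : KP (GG I.2.1) I.1.toFinset) :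
    numHard I = (hards I).length := by
  have hnd : (hards I).Nodup := (lctxH hw hK).hJn
  rw [← List.toFinset_card_of_nodup hnd]
  unfold numHard
  rw [Nat.card_congr (Equiv.subtypeEquivRight (q := fun Z => Z ∈ (hards I).toFinset) fun Z => by
    rw [List.mem_toFinset, mem_hards hw hK]), Nat.card_eq_fintype_card, Fintype.card_coe]

theorem reach_iff (hw : WellFormed I) (hK : KP (GG I.2.1) I.1.toFinset) {Z : List ℕ}
    (hZ : Z ∈ I.2.2) (hd : ¬ Con (GG I.2.1) Z.toFinset) (x y : vset I.1 Z) :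
    ((graph I.1 I.2.1).induce (vset I.1 Z)).Reachable x y ↔
      near (GG I.2.1) Z.toFinset x.1.1 y.1.1 := by
  have hZU := toFinset_subset hw hZ
  have hV : ∀ z ∈ Z, z ∈ I.1 := (hw.2.2 Z hZ).2
  have hm : ∀ x : vset I.1 Z, x.1.1 ∈ Z.toFinset := fun x => List.mem_toFinset.2 x.2
  have hne : Z.toFinset.Nonempty := ⟨_, hm x⟩
  constructor
  · rintro ⟨p⟩
    induction p with
    | nil => exact near_refl _ _
    | cons hadj p ih =>
      refine near_trans hK hZU hne hd (hm _) (hm _) (hm _) (near_of_adj ?_) ih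
      exact graph_adj.1 hadj
  · intro h
    rcases h with h | h | ⟨p, hp, h1, h2⟩
    · have : x = y := Subtype.ext (Subtype.ext h)
      rw [this]
    · exact SimpleGraph.Adj.reachable (G := (graph I.1 I.2.1).induce (vset I.1 Z))
        (graph_adj.2 h)
    · have hpZ := List.mem_toFinset.1 hp
      let q : vset I.1 Z := ⟨⟨p, hV p hpZ⟩, hpZ⟩
      have r1 : ((graph I.1 I.2.1).induce (vset I.1 Z)).Adj x q := graph_adj.2 h1
      have r2 : ((graph I.1 I.2.1).induce (vset I.1 Z)).Adj q y := graph_adj.2 h2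
      exact r1.reachable.trans r2.reachable

theorem ndc (hw : WellFormed I) (hK : KP (GG I.2.1) I.1.toFinset) {Z : List ℕ}
    (hZ : Hard I Z) : ¬ Con (GG I.2.1) Z.toFinset :=
  (lctxH hw hK).hdc Z ((mem_hards hw hK).2 hZ)

theorem apart_iff (hw : WellFormed I) (hK : KP (GG I.2.1) I.1.toFinset) {Z : List ℕ}
    (hZ : Hard I Z) (a b : {v // v ∈ I.1}) : Apart I Z a b ↔ Apt I.2.1 Z a.1 b.1 := by
  have hV : ∀ z ∈ Z, z ∈ I.1 := (hw.2.2 Z hZ.1).2
  unfold Apart Apt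
  constructor
  · intro h x hx y hy h1 h2 hn
    exact h ⟨⟨x, hV x hx⟩, hx⟩ ⟨⟨y, hV y hy⟩, hy⟩ (graph_adj.2 h1) (graph_adj.2 h2)
      ((reach_iff hw hK hZ.1 (ndc hw hK hZ) _ _).2 hn)
  · intro h x y h1 h2 hr
    exact h x.1.1 x.2 y.1.1 y.2 (graph_adj.1 h1) (graph_adj.1 h2)
      ((reach_iff hw hK hZ.1 (ndc hw hK hZ) _ _).1 hr)

theorem joins_iff (hw : WellFormed I) (hK : KP (GG I.2.1) I.1.toFinset) {Z : List ℕ}
    (hZ : Hard I Z) {v : {v // v ∈ I.1}} (hv : v.1 ∈ freeV I.1 I.2.2) :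
    Joins I Z v ↔ discB I.2.1 (v.1 :: Z) = false := by
  have hZd : Z ∈ discs I.2.1 I.2.2 := (mem_hardL.1 ((mem_hards hw hK).2 hZ)).1
  have h1 : Con (GG I.2.1) (Z.toFinset ∪ {v.1}) ↔ Joins I Z v := by
    refine con_iff ?_ fun x => ?_
    · refine union_subset (toFinset_subset hw hZ.1) ?_
      rw [singleton_subset_iff, List.mem_toFinset]
      exact v.2
    · rw [Set.mem_insert_iff, mem_union, List.mem_toFinset, mem_singleton, Subtype.ext_iff,
        or_comm]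
      rfl
  have h2 := mem_joinL (lctx hw hK) hZd (v := v.1)
  unfold joinL at h2
  rw [List.mem_filter] at h2
  rw [← h1, ← Bool.not_eq_true']
  constructor
  · intro h3
    exact (h2.2 ⟨hv, h3⟩).2
  · intro h3
    exact (h2.1 ⟨hv, h3⟩).2

theorem okI_iff (hw : WellFormed I) (hK : KP (GG I.2.1) I.1.toFinset)
    {T : Finset (List ℕ)} {U : Finset {v // v ∈ I.1}} {U' : Finset ℕ}
    (hU : ∀ v : {v // v ∈ I.1}, v ∈ U ↔ v.1 ∈ U') (hV : ∀ v ∈ U', v ∈ freeV I.1 I.2.2) :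
    (∀ Z, Hard I Z → Z ∉ T → (Compact I Z ∧ Seen I U Z) ∧
      ∀ a ∈ U, ∀ b ∈ U, a ≠ b → ¬ (graph I.1 I.2.1).Adj a b → Alike I Z a b) ↔
      Ok I.2.1 U' (mns (hards I) T) := by
  have hV' : ∀ v ∈ U', v ∈ I.1 := fun v hv => (mem_freeV.1 (hV v hv)).1
  have key : ∀ Z, Hard I Z → ∀ a b : {v // v ∈ I.1}, a.1 ∈ U' → b.1 ∈ U' → (Alike I Z a b ↔
      (Apt I.2.1 Z a.1 b.1 ∨ (discB I.2.1 (a.1 :: Z) = false ∧
        discB I.2.1 (b.1 :: Z) = false))) := by
    intro Z hZ a b ha hb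
    unfold Alike
    rw [apart_iff hw hK hZ, joins_iff hw hK hZ (hV _ ha), joins_iff hw hK hZ (hV _ hb)]
  unfold Ok Pr
  constructor
  · intro h
    refine ⟨fun Z hZ => ?_, fun a ha b hb hne hab Z hZ => ?_⟩
    · obtain ⟨hZ1, h0⟩ := mem_mns.1 hZ
      have hZ' := (mem_hards hw hK).1 hZ1
      obtain ⟨⟨h2, h3⟩, _⟩ := h Z hZ' h0
      exact ⟨(compact_iff hw hZ'.1).1 h2, (seen_iff hw hZ'.1 hU hV').1 h3⟩
    · obtain ⟨hZ1, h0⟩ := mem_mns.1 hZ
      have hZ' := (mem_hards hw hK).1 hZ1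
      refine (key Z hZ' ⟨a, hV' a ha⟩ ⟨b, hV' b hb⟩ ha hb).1 ((h Z hZ' h0).2 _ ((hU _).2 ha)
        _ ((hU _).2 hb) (fun he => hne (congrArg Subtype.val he)) fun he =>
        hab (graph_adj.1 he))
  · intro h Z hZ h0
    have hZm := mem_mns.2 ⟨(mem_hards hw hK).2 hZ, h0⟩
    obtain ⟨h2, h3⟩ := h.1 Z hZm
    refine ⟨⟨(compact_iff hw hZ.1).2 h2, (seen_iff hw hZ.1 hU hV').2 h3⟩, ?_⟩
    intro a ha b hb hne hab
    exact (key Z hZ a b ((hU a).1 ha) ((hU b).1 hb)).2 (h.2 a.1 ((hU a).1 ha) b.1 ((hU b).1 hb)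
      (fun he => hne (Subtype.ext he)) (fun he => hab (graph_adj.2 he)) Z hZm)

theorem uniform_iff (hw : WellFormed I) (hK : KP (GG I.2.1) I.1.toFinset) (t : ℕ) :
    Uniform t I ↔ nearU t (I.2.1, (freeV I.1 I.2.2, hards I)) = true := by
  rw [nearU_iff t _ _ (lctx hw hK).hWn]
  unfold Uniform
  constructor
  · rintro ⟨S, U, T, hS, hU, h⟩
    refine ⟨(S.map ⟨Subtype.val, Subtype.val_injective⟩) ∩ (freeV I.1 I.2.2).toFinset,
      inter_subset_right, T ∩ (hards I).toFinset, fun Z hZ =>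
      List.mem_toFinset.1 (mem_inter.1 hZ).2, ?_, ?_⟩
    · have h1 := card_le_card (inter_subset_left
        (s₁ := S.map ⟨Subtype.val, Subtype.val_injective⟩) (s₂ := (freeV I.1 I.2.2).toFinset))
      have h2 := card_le_card (inter_subset_left (s₁ := T)
        (s₂ := (hards I).toFinset))
      rw [card_map] at h1
      omega
    refine Ok.mono (Subset.refl _) (J := mns (hards I) T) (fun Z hZ => ?_)
      ((okI_iff hw hK (fun v => ?_) (fun v hv => ?_)).1 h)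
    · rw [mem_mns, mem_inter] at hZ
      exact mem_mns.2 ⟨hZ.1, fun hZT => hZ.2 ⟨hZT, List.mem_toFinset.2 hZ.1⟩⟩
    · rw [hU, mem_sdiff, mem_inter, List.mem_toFinset, mem_freeV, mem_map]
      constructor
      · rintro ⟨h1, h2⟩
        refine ⟨⟨v.2, h2⟩, fun h3 => h1 ?_⟩
        obtain ⟨s, hs, he⟩ := h3.1
        rw [← Subtype.ext (show s.1 = v.1 from he)]
        exact hs
      · rintro ⟨h1, h2⟩
        exact ⟨fun h3 => h2 ⟨⟨v, h3, rfl⟩, h1⟩, h1.2⟩
    · exact List.mem_toFinset.1 (mem_sdiff.1 hv).1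
  · rintro ⟨S, hS, T, _, hc, hk⟩
    have hSV : ∀ s ∈ S, s ∈ I.1 := fun s hs => (mem_freeV.1 (List.mem_toFinset.1 (hS hs))).1
    have hUV : ∀ s ∈ (freeV I.1 I.2.2).toFinset \ S, s ∈ I.1 := fun s hs =>
      (mem_freeV.1 (List.mem_toFinset.1 (mem_sdiff.1 hs).1)).1
    obtain ⟨S', h1, h2⟩ := exists_lift hSV
    obtain ⟨U', h3, h4⟩ := exists_lift hUV
    refine ⟨S', U', T, by omega, fun v => ?_, (okI_iff hw hK h4 fun s hs =>
      List.mem_toFinset.1 (mem_sdiff.1 hs).1).2 hk⟩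
    rw [h4, h2, mem_sdiff, List.mem_toFinset, mem_freeV]
    constructor
    · rintro ⟨h5, h6⟩
      exact ⟨h6, h5.2⟩
    · rintro ⟨h5, h6⟩
      exact ⟨⟨v.2, h6⟩, h5⟩

/-- the algorithm -/
def solveU (t : ℕ) (I : Inst) : Bool :=
  wfB I && kpB I.1 I.2.1 && nearU t (I.2.1, (freeV I.1 I.2.2, hards I)) &&
    (decide (2 * (hards I).length + 1 + t ≤ (freeV I.1 I.2.2).length) &&
      topU t (I.2.1, (freeV I.1 I.2.2, hards I)))

theorem poly_solveU (t : ℕ) : Poly (solveU t) := by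
  have h1 := poly_nearU t
  have h2 := poly_topU t
  unfold solveU wfB kpB nodupB hards
  generalize nearU t = f at h1
  generalize topU t = g at h2
  fun_prop

theorem solveU_iff (t : ℕ) (I : Inst) : (WellFormed I ∧ Free twoP1P2 (graph I.1 I.2.1) ∧
    Uniform t I ∧ 2 * numHard I + 1 + t ≤ numFree I ∧ DCS I) ↔ solveU t I = true := by
  unfold solveU
  rw [Bool.and_eq_true, Bool.and_eq_true, Bool.and_eq_true, Bool.and_eq_true, wfB_iff, kpB_iff,
    free_iff, decide_eq_true_eq, and_assoc, and_assoc]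
  refine and_congr_right fun hw => and_congr_right fun hK => ?_
  rw [← uniform_iff hw hK, numHard_eq hw hK, numFree_eq hw]
  refine and_congr_right fun hN => and_congr_right fun hn => ?_
  rw [dcs_iff hw hK, feas_hard (lctx hw hK)]
  constructor
  · intro h
    rw [uniform_iff hw hK, nearU_iff t _ _ (lctx hw hK).hWn] at hN
    obtain ⟨S, hS, T, hT', hc, hk⟩ := hN
    exact topU_complete t S T _ _ (lctxH hw hK) hS hT' hc hn hk h
  · exact topU_sound t _ _ (lctxH hw hK)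

theorem mainU (t : ℕ) : InPP (fun I : Inst => WellFormed I ∧ Free twoP1P2 (graph I.1 I.2.1) ∧
    Uniform t I ∧ 2 * numHard I + 1 + t ≤ numFree I ∧ DCS I) :=
  inPP_of (poly_solveU t) fun I => solveU_iff t I

end Pool.Agent.Helper878_bj
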