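import Pool.Agent.Helper878_bj.De

/-!
# The recombination
-/

set_option autoImplicit false
set_option linter.unusedSectionVars false

namespace Pool.Agent.Helper878_bj

open Finset Pool.Agent.Helper878_mm Pool.Agent.Helper878_bs
open Pool.Agent.Helper878_dcs (Assign)
open scoped Classical

variable {ι : Type} [DecidableEq ι] [Fintype ι]
variable {W : Finset ℕ} {σ : ι → ℕ → Fin 3} {A : ℕ → ℕ → Prop}

/-- an injective choice -/
theorem choose_inj (J : Finset ι) (S : Finset ℕ) (h : J.card ≤ S.card) :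
    ∃ f : ι → ℕ, (∀ j ∈ J, f j ∈ S) ∧ ∀ j ∈ J, ∀ k ∈ J, j ≠ k → f j ≠ f k := by
  obtain ⟨e, he⟩ : ∃ e : J ↪ S, True := by
    have h1 : Fintype.card J ≤ Fintype.card S := by
      rw [Fintype.card_coe, Fintype.card_coe]; exact h
    obtain ⟨e⟩ := Function.Embedding.nonempty_of_card_le h1
    exact ⟨e, trivial⟩
  refine ⟨fun j => if hj : j ∈ J then (e ⟨j, hj⟩ : ℕ) else 0, fun j hj => ?_,
    fun j hj k hk hjk => ?_⟩
  · simp only [hj, dif_pos]
    exact (e ⟨j, hj⟩).2
  · simp only [hj, hk, dif_pos]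
    intro hh
    have := e.injective (Subtype.ext hh)
    exact hjk (congrArg Subtype.val this)

/-- the types of the options: a vertex outside the classes -/
def T1 (W : Finset ℕ) (σ : ι → ℕ → Fin 3) (e : ℕ) (o : ι → Finset ℕ) (j : ι) : Prop :=
  σ j e ≠ 0 ∧ ∃ c ∈ W, c ∉ De W σ e ∧ σ j c = 0 ∧ o j = {c}

/-- a pair inside the classes -/
def T2 (W : Finset ℕ) (σ : ι → ℕ → Fin 3) (e : ℕ) (o : ι → Finset ℕ) (j : ι) : Prop :=
  σ j e ≠ 0 ∧ ∃ a ∈ Pe W σ e, ∃ b ∈ Qe W σ e, o j = {a, b}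

/-- one vertex in the class `X` -/
def T3 (W : Finset ℕ) (σ : ι → ℕ → Fin 3) (e : ℕ) (X : Finset ℕ) (o : ι → Finset ℕ) (j : ι) :
    Prop :=
  σ j e ≠ 0 ∧ ∃ d ∈ X, ∃ w ∈ W, w ∉ De W σ e ∧ σ j w ≠ 0 ∧ σ j d ≠ σ j w ∧ o j = {d, w}

/-- a vertex of the class `X` -/
def T5 (σ : ι → ℕ → Fin 3) (e : ℕ) (X : Finset ℕ) (o : ι → Finset ℕ) (j : ι) : Prop :=
  σ j e = 0 ∧ ∃ c ∈ X, o j = {c}

/-- all types -/
def Ty (W : Finset ℕ) (σ : ι → ℕ → Fin 3) (e : ℕ) (o : ι → Finset ℕ) (j : ι) : Prop :=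
  T1 W σ e o j ∨ T2 W σ e o j ∨ (T3 W σ e (Pe W σ e) o j ∨ T5 σ e (Pe W σ e) o j) ∨
    (T3 W σ e (Qe W σ e) o j ∨ T5 σ e (Qe W σ e) o j)

theorem T2.D {e : ℕ} {o : ι → Finset ℕ} {j : ι} (h : T2 W σ e o j) : o j \ De W σ e = ∅ := by
  obtain ⟨_, a, ha, b, hb, h⟩ := h
  rw [h, sdiff_eq_empty_iff_subset]
  intro v hv
  simp only [mem_insert, mem_singleton] at hv
  rcases hv with rfl | rfl
  · exact mem_De.2 (Or.inl ha)
  · exact mem_De.2 (Or.inr hb)

theorem T5.D {e : ℕ} {X : Finset ℕ} (hX : X ⊆ De W σ e) {o : ι → Finset ℕ} {j : ι}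
    (h : T5 σ e X o j) : o j \ De W σ e = ∅ := by
  obtain ⟨_, c, hc, h⟩ := h
  rw [h, sdiff_eq_empty_iff_subset, singleton_subset_iff]
  exact hX hc

theorem pair_D {e : ℕ} {s : Finset ℕ} {d w : ℕ} (hd : d ∈ De W σ e) (hw : w ∉ De W σ e)
    (h : s = {d, w}) : s \ De W σ e = {w} := by
  ext v
  rw [h]
  simp only [mem_sdiff, mem_insert, mem_singleton]
  constructor
  · rintro ⟨rfl | rfl, h2⟩
    · exact absurd hd h2
    · rfl
  · rintro rfl
    exact ⟨Or.inr rfl, hw⟩

theorem Pe_sub {e : ℕ} : Pe W σ e ⊆ De W σ e := fun _ h => mem_De.2 (Or.inl h)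

theorem Qe_sub {e : ℕ} : Qe W σ e ⊆ De W σ e := fun _ h => mem_De.2 (Or.inr h)

theorem T3.D {e : ℕ} {X : Finset ℕ} (hX : X ⊆ De W σ e) {o : ι → Finset ℕ} {j : ι}
    (h : T3 W σ e X o j) : ∃ w, o j \ De W σ e = {w} := by
  obtain ⟨_, d, hd, w, _, hw, _, _, h⟩ := h
  exact ⟨w, pair_D (hX hd) hw h⟩

theorem card_one {e : ℕ} {o : ι → Finset ℕ} {j : ι} (h : Ty W σ e o j) :
    (o j \ De W σ e).card ≤ 1 := by
  have key : ∀ X, X ⊆ De W σ e → (T3 W σ e X o j ∨ T5 σ e X o j) →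
      (o j \ De W σ e).card ≤ 1 := by
    rintro X hX (h | h)
    · obtain ⟨w, h⟩ := T3.D hX h
      rw [h]; simp
    · rw [T5.D hX h]; simp
  rcases h with h | h | h | h
  · obtain ⟨_, c, _, _, _, h⟩ := h
    refine (card_le_card sdiff_subset).trans ?_
    rw [h]; simp
  · rw [h.D]; simp
  · exact key _ Pe_sub h
  · exact key _ Qe_sub h

/-- an option using a vertex of the class `X` -/
def K (W : Finset ℕ) (σ : ι → ℕ → Fin 3) (e : ℕ) (X : Finset ℕ) (o : ι → Finset ℕ) (j : ι) :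
    Prop := T3 W σ e X o j ∨ T5 σ e X o j

theorem K.ex {e : ℕ} {X : Finset ℕ} {o : ι → Finset ℕ} {j : ι} (h : K W σ e X o j) :
    ∃ d ∈ X, d ∈ o j := by
  rcases h with ⟨_, d, hd, w, _, _, _, _, h⟩ | ⟨_, c, hc, h⟩
  · exact ⟨d, hd, by rw [h]; simp⟩
  · exact ⟨c, hc, by rw [h]; simp⟩

theorem K.not2 {e : ℕ} {X : Finset ℕ} (hX : X ⊆ De W σ e) {o : ι → Finset ℕ} {j : ι}
    (h : K W σ e X o j) : ¬ T2 W σ e o j := by
  intro h2
  rcases h with h | h
  · obtain ⟨w, h⟩ := T3.D hX h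
    rw [h2.D] at h
    exact absurd h.symm (singleton_ne_empty _)
  · exact h2.1 h.1

/-- the option with the vertex of the class replaced by another one of the class is good -/
theorem K.good (hN : HN W σ A) {e : ℕ} {X : Finset ℕ} (hX : X ⊆ De W σ e)
    (hX' : ∀ a ∈ X, ∀ b ∈ X, ∀ i, σ i a = σ i b) {o : ι → Finset ℕ} {j : ι}
    (h : K W σ e X o j) {p : ℕ} (hp : p ∈ X) :
    Good W σ A j ({p} ∪ (o j \ De W σ e)) := by
  rcases h with h | h
  · obtain ⟨h0, d, hd, w, hw, hwD, h1, h2, h⟩ := h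
    rw [pair_D (hX hd) hwD h]
    show Good W σ A j ({p} ∪ {w})
    refine good_pair hN.sym (De_sub (hX hp)) hw (De_ne (hX hp) h0) h1 ?_
      (out_adj hN (hX hp) hw hwD)
    rw [hX' p hp d hd j]
    exact h2
  · rw [T5.D hX h, union_empty]
    exact Or.inl ⟨p, De_sub (hX hp), De_zero (hX hp) h.1, rfl⟩

/-- The recombination. -/
theorem recombine (hN : HN W σ A) {e : ℕ} {i0 : ι} (hi0 : σ i0 e ≠ 0) {o : ι → Finset ℕ}
    (hdis : ∀ i j, i ≠ j → Disjoint (o i) (o j))
    (hty : ∀ j, Ty W σ e o j)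
    (hfree : ∀ f ∈ W, (∀ j, f ∉ o j) → f ∈ De W σ e) (hT : Test W σ A e) :
    ∃ o : ι → Finset ℕ, (∀ i, Good W σ A i (o i)) ∧ ∀ i j, i ≠ j → Disjoint (o i) (o j) := by
  obtain ⟨g, hg1, hg2⟩ := hT
  have hPQ : ∀ v, v ∈ Pe W σ e → v ∉ Qe W σ e := fun v => disj_PQ hi0
  set D := De W σ e with hD
  set Q : Finset ι := univ.filter fun i => σ i e ≠ 0 with hQ
  have hmQ : ∀ j, j ∈ Q ↔ σ j e ≠ 0 := fun j => by rw [hQ, mem_filter]; simp
  set In : Finset ι := univ.filter fun j => T2 W σ e o j with hIn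
  set Jp : Finset ι := univ.filter fun j => K W σ e (Pe W σ e) o j with hJp
  set Jq : Finset ι := univ.filter fun j => K W σ e (Qe W σ e) o j with hJq
  set E : Finset ι := Q.filter fun j => ∃ a b, a ≠ b ∧ g j = {a, b} ∧ a ∈ Pe W σ e ∧
    b ∈ Qe W σ e ∧ A a b with hE
  have hInQ : In ⊆ Q := fun j hj => (hmQ j).2 (mem_filter.1 hj).2.1
  have hEQ : E ⊆ Q := filter_subset _ _
  -- counting the vertices outside the classes
  have c1 : (W \ D).card ≤ (Q \ In).card := by
    have h1 : W \ D ⊆ (Q \ In).biUnion fun j => o j \ D := by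
      intro w hw
      obtain ⟨hw, hwD⟩ := mem_sdiff.1 hw
      obtain ⟨j, hj⟩ : ∃ j, w ∈ o j := by
        by_contra hno
        push Not at hno
        exact hwD (hfree w hw hno)
      have hwj : w ∈ o j \ D := mem_sdiff.2 ⟨hj, hwD⟩
      refine mem_biUnion.2 ⟨j, mem_sdiff.2 ⟨(hmQ j).2 ?_, fun h => ?_⟩, hwj⟩
      · intro h0
        rcases hty j with h | h | (h | h) | (h | h)
        · exact h.1 h0
        · exact h.1 h0
        · exact h.1 h0
        · rw [hD, T5.D Pe_sub h] at hwj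
          exact absurd hwj (notMem_empty _)
        · exact h.1 h0
        · rw [hD, T5.D Qe_sub h] at hwj
          exact absurd hwj (notMem_empty _)
      · have h2 := (mem_filter.1 h).2.D
        rw [hD, h2] at hwj
        exact absurd hwj (notMem_empty _)
    have h2 := (card_le_card h1).trans
      (card_biUnion_le_card_mul _ _ 1 fun j _ => card_one (hty j))
    omega
  have c2 : (Q \ E).card ≤ (W \ D).card := by
    have hf : ∀ j ∈ Q \ E, ∃ w, g j = {w} ∧ w ∈ W \ D := by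
      intro j hj
      obtain ⟨hjQ, hjE⟩ := mem_sdiff.1 hj
      rcases hg2 j hjQ with ⟨w, h1, h2, h3, h4⟩ | ⟨a, b, h1, h2, h3, h4, h5⟩
      · exact ⟨w, h1, mem_sdiff.2 ⟨h2, fun h => (mem_De.1 h).elim h3 h4⟩⟩
      · exact absurd (mem_filter.2 ⟨hjQ, a, b, h1, h2, h3, h4, h5⟩) hjE
    choose! f hf1 hf2 using hf
    refine card_le_card_of_injOn f (fun j hj => hf2 j hj) ?_
    intro j hj k hk hjk
    by_contra hne
    have := hg1 j (mem_sdiff.1 hj).1 k (mem_sdiff.1 hk).1 hne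
    rw [hf1 j hj, hf1 k hk, hjk] at this
    simp at this
  have c3 : In.card ≤ E.card := by
    have h1 := card_sdiff_add_card_eq_card hInQ
    have h2 := card_sdiff_add_card_eq_card hEQ
    omega
  -- an injection
  obtain ⟨φ, hφ1, hφ2⟩ : ∃ φ : ι → ι, (∀ j ∈ In, φ j ∈ E) ∧
      ∀ j ∈ In, ∀ k ∈ In, j ≠ k → φ j ≠ φ k := by
    obtain ⟨f, hf⟩ : ∃ f : In ↪ E, True := by
      have h1 : Fintype.card In ≤ Fintype.card E := by
        rw [Fintype.card_coe, Fintype.card_coe]; exact c3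
      obtain ⟨f⟩ := Function.Embedding.nonempty_of_card_le h1
      exact ⟨f, trivial⟩
    refine ⟨fun j => if hj : j ∈ In then (f ⟨j, hj⟩ : ι) else j, fun j hj => ?_,
      fun j hj k hk hjk => ?_⟩
    · simp only [hj, dif_pos]
      exact (f ⟨j, hj⟩).2
    · simp only [hj, hk, dif_pos]
      intro hh
      have := f.injective (Subtype.ext hh)
      exact hjk (congrArg Subtype.val this)
  have hφ3 : ∀ j ∈ In, ∃ a b, a ≠ b ∧ g (φ j) = {a, b} ∧ a ∈ Pe W σ e ∧
      b ∈ Qe W σ e ∧ A a b := fun j hj => (mem_filter.1 (hφ1 j hj)).2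
  have hφQ : ∀ j ∈ In, φ j ∈ Q := fun j hj => hEQ (hφ1 j hj)
  set Gs : Finset ℕ := In.biUnion fun j => g (φ j) with hGs
  -- counting the classes
  have nI3 : ∀ j ∈ Jp, j ∉ In := fun j h2 h1 =>
    K.not2 Pe_sub (mem_filter.1 h2).2 (mem_filter.1 h1).2
  have nI4 : ∀ j ∈ Jq, j ∉ In := fun j h2 h1 =>
    K.not2 Qe_sub (mem_filter.1 h2).2 (mem_filter.1 h1).2
  have c4 : In.card + Jp.card ≤ (Pe W σ e).card := by
    have hdj : Disjoint In Jp := disjoint_left.2 fun j h1 h2 => nI3 j h2 h1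
    rw [← card_union_of_disjoint hdj]
    have hf : ∀ j ∈ In ∪ Jp, ∃ v, v ∈ o j ∧ v ∈ Pe W σ e := by
      intro j hj
      rcases mem_union.1 hj with h | h
      · obtain ⟨_, a, ha, b, hb, h⟩ := (mem_filter.1 h).2
        exact ⟨a, by rw [h]; simp, ha⟩
      · obtain ⟨d, hd, h⟩ := (mem_filter.1 h).2.ex
        exact ⟨d, h, hd⟩
    choose! f hf1 hf2 using hf
    refine card_le_card_of_injOn f (fun j hj => hf2 j hj) ?_
    intro j hj k hk hjk
    by_contra hne
    exact disjoint_left.1 (hdis j k hne) (hf1 j hj) (hjk ▸ hf1 k hk)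
  have c5 : In.card + Jq.card ≤ (Qe W σ e).card := by
    have hdj : Disjoint In Jq := disjoint_left.2 fun j h1 h2 => nI4 j h2 h1
    rw [← card_union_of_disjoint hdj]
    have hf : ∀ j ∈ In ∪ Jq, ∃ v, v ∈ o j ∧ v ∈ Qe W σ e := by
      intro j hj
      rcases mem_union.1 hj with h | h
      · obtain ⟨_, a, ha, b, hb, h⟩ := (mem_filter.1 h).2
        exact ⟨b, by rw [h]; simp, hb⟩
      · obtain ⟨d, hd, h⟩ := (mem_filter.1 h).2.ex
        exact ⟨d, h, hd⟩
    choose! f hf1 hf2 using hf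
    refine card_le_card_of_injOn f (fun j hj => hf2 j hj) ?_
    intro j hj k hk hjk
    by_contra hne
    exact disjoint_left.1 (hdis j k hne) (hf1 j hj) (hjk ▸ hf1 k hk)
  have c6 : (Pe W σ e ∩ Gs).card ≤ In.card := by
    have h1 : Pe W σ e ∩ Gs ⊆ In.biUnion fun j => Pe W σ e ∩ g (φ j) := by
      intro v hv
      obtain ⟨h1, h2⟩ := mem_inter.1 hv
      obtain ⟨j, hj, h3⟩ := mem_biUnion.1 h2
      exact mem_biUnion.2 ⟨j, hj, mem_inter.2 ⟨h1, h3⟩⟩
    have h2 : ∀ j ∈ In, (Pe W σ e ∩ g (φ j)).card ≤ 1 := by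
      intro j hj
      obtain ⟨a, b, _, h3, ha, hb, _⟩ := hφ3 j hj
      refine (card_le_card (t := {a}) ?_).trans (by simp)
      intro v hv
      obtain ⟨h4, h5⟩ := mem_inter.1 hv
      rw [h3] at h5
      simp only [mem_insert, mem_singleton] at h5 ⊢
      rcases h5 with h5 | h5
      · exact h5
      · exact absurd hb (hPQ b (h5 ▸ h4))
    have h3 := (card_le_card h1).trans (card_biUnion_le_card_mul _ _ 1 h2)
    omega
  have c7 : (Qe W σ e ∩ Gs).card ≤ In.card := by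
    have h1 : Qe W σ e ∩ Gs ⊆ In.biUnion fun j => Qe W σ e ∩ g (φ j) := by
      intro v hv
      obtain ⟨h1, h2⟩ := mem_inter.1 hv
      obtain ⟨j, hj, h3⟩ := mem_biUnion.1 h2
      exact mem_biUnion.2 ⟨j, hj, mem_inter.2 ⟨h1, h3⟩⟩
    have h2 : ∀ j ∈ In, (Qe W σ e ∩ g (φ j)).card ≤ 1 := by
      intro j hj
      obtain ⟨a, b, _, h3, ha, hb, _⟩ := hφ3 j hj
      refine (card_le_card (t := {b}) ?_).trans (by simp)
      intro v hv
      obtain ⟨h4, h5⟩ := mem_inter.1 hv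
      rw [h3] at h5
      simp only [mem_insert, mem_singleton] at h5 ⊢
      rcases h5 with h5 | h5
      · exact absurd (h5 ▸ h4) (hPQ a ha)
      · exact h5
    have h3 := (card_le_card h1).trans (card_biUnion_le_card_mul _ _ 1 h2)
    omega
  obtain ⟨p, hp1, hp2⟩ := choose_inj Jp (Pe W σ e \ Gs) (by
    have := card_sdiff_add_card_inter (Pe W σ e) Gs
    omega)
  obtain ⟨q, hq1, hq2⟩ := choose_inj Jq (Qe W σ e \ Gs) (by
    have := card_sdiff_add_card_inter (Qe W σ e) Gs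
    omega)
  -- the new parts
  set n : ι → Finset ℕ := fun j => if j ∈ In then g (φ j) else if j ∈ Jp then {p j} else
    if j ∈ Jq then {q j} else ∅ with hn
  have n2 : ∀ j ∈ In, n j = g (φ j) := fun j hj => by simp only [hn, hj, if_true]
  have n3 : ∀ j ∈ Jp, n j = {p j} := fun j hj => by
    simp only [hn, nI3 j hj, hj, if_true, if_false]
  have nJ4 : ∀ j ∈ Jq, j ∉ Jp := by
    intro j h2 h1
    rcases (mem_filter.1 h1).2 with h3 | h3 <;> rcases (mem_filter.1 h2).2 with h4 | h4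
    · obtain ⟨_, d, hd, w, _, hw, _, _, h⟩ := h4
      obtain ⟨_, d', hd', w', _, hw', _, _, h'⟩ := h3
      have h3 : d' ∈ ({d, w} : Finset ℕ) := by rw [← h, h']; simp
      simp only [mem_insert, mem_singleton] at h3
      rcases h3 with rfl | rfl
      · exact hPQ _ hd' hd
      · exact hw (mem_De.2 (Or.inl hd'))
    · exact h3.1 h4.1
    · exact h4.1 h3.1
    · obtain ⟨_, c, hc, h⟩ := h4
      obtain ⟨_, c', hc', h'⟩ := h3
      have h5 : c' ∈ ({c} : Finset ℕ) := by rw [← h, h']; simp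
      rw [mem_singleton] at h5
      exact hPQ _ hc' (h5 ▸ hc)
  have n4 : ∀ j ∈ Jq, n j = {q j} := fun j hj => by
    simp only [hn, nI4 j hj, nJ4 j hj, hj, if_true, if_false]
  have n1 : ∀ j, j ∉ In → j ∉ Jp → j ∉ Jq → n j = ∅ := fun j h1 h2 h3 => by
    simp only [hn, h1, h2, h3, if_false]
  have nD : ∀ j, n j ⊆ D := by
    intro j v hv
    by_cases h1 : j ∈ In
    · rw [n2 j h1] at hv
      obtain ⟨a, b, _, h3, ha, hb, _⟩ := hφ3 j h1
      rw [h3] at hv
      simp only [mem_insert, mem_singleton] at hv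
      rcases hv with rfl | rfl
      · exact mem_De.2 (Or.inl ha)
      · exact mem_De.2 (Or.inr hb)
    · by_cases h2 : j ∈ Jp
      · rw [n3 j h2, mem_singleton] at hv
        exact hv ▸ mem_De.2 (Or.inl (mem_sdiff.1 (hp1 j h2)).1)
      · by_cases h3 : j ∈ Jq
        · rw [n4 j h3, mem_singleton] at hv
          exact hv ▸ mem_De.2 (Or.inr (mem_sdiff.1 (hq1 j h3)).1)
        · rw [n1 j h1 h2 h3] at hv
          exact absurd hv (notMem_empty _)
  have nG : ∀ j ∈ In, ∀ v ∈ n j, v ∈ Gs := by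
    intro j hj v hv
    rw [n2 j hj] at hv
    exact mem_biUnion.2 ⟨j, hj, hv⟩
  have nG' : ∀ j, j ∉ In → ∀ v ∈ n j, v ∉ Gs := by
    intro j h1 v hv
    by_cases h2 : j ∈ Jp
    · rw [n3 j h2, mem_singleton] at hv
      exact hv ▸ (mem_sdiff.1 (hp1 j h2)).2
    · by_cases h3 : j ∈ Jq
      · rw [n4 j h3, mem_singleton] at hv
        exact hv ▸ (mem_sdiff.1 (hq1 j h3)).2
      · rw [n1 j h1 h2 h3] at hv
        exact absurd hv (notMem_empty _)
  have ndis : ∀ i j, i ≠ j → ∀ v, v ∈ n i → v ∉ n j := by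
    intro i j hij v hi hj
    by_cases h1 : i ∈ In
    · by_cases h2 : j ∈ In
      · rw [n2 i h1] at hi
        rw [n2 j h2] at hj
        exact disjoint_left.1 (hg1 _ (hφQ i h1) _ (hφQ j h2) (hφ2 i h1 j h2 hij)) hi hj
      · exact nG' j h2 v hj (nG i h1 v hi)
    · by_cases h2 : j ∈ In
      · exact nG' i h1 v hi (nG j h2 v hj)
      · by_cases h3 : i ∈ Jp
        · rw [n3 i h3, mem_singleton] at hi
          by_cases h4 : j ∈ Jp
          · rw [n3 j h4, mem_singleton] at hj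
            exact hp2 i h3 j h4 hij (hi ▸ hj)
          · by_cases h5 : j ∈ Jq
            · rw [n4 j h5, mem_singleton] at hj
              have h6 := (mem_sdiff.1 (hp1 i h3)).1
              have h7 := (mem_sdiff.1 (hq1 j h5)).1
              rw [← hi] at h6
              rw [← hj] at h7
              exact hPQ _ h6 h7
            · rw [n1 j h2 h4 h5] at hj
              exact absurd hj (notMem_empty _)
        · by_cases h3' : i ∈ Jq
          · rw [n4 i h3', mem_singleton] at hi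
            by_cases h4 : j ∈ Jp
            · rw [n3 j h4, mem_singleton] at hj
              have h6 := (mem_sdiff.1 (hq1 i h3')).1
              have h7 := (mem_sdiff.1 (hp1 j h4)).1
              rw [← hi] at h6
              rw [← hj] at h7
              exact hPQ _ h7 h6
            · by_cases h5 : j ∈ Jq
              · rw [n4 j h5, mem_singleton] at hj
                exact hq2 i h3' j h5 hij (hi ▸ hj)
              · rw [n1 j h2 h4 h5] at hj
                exact absurd hj (notMem_empty _)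
          · rw [n1 i h1 h3 h3'] at hi
            exact absurd hi (notMem_empty _)
  refine ⟨fun j => n j ∪ (o j \ D), fun j => ?_, fun i j hij => ?_⟩
  · show Good W σ A j (n j ∪ (o j \ D))
    by_cases h2 : j ∈ In
    · have h3 := (mem_filter.1 h2).2.D
      rw [← hD] at h3
      rw [h3, union_empty, n2 j h2]
      obtain ⟨a, b, _, h3, ha, hb, hab⟩ := hφ3 j h2
      rw [h3]
      have h0 := (mem_filter.1 h2).2.1
      have ha' := mem_Pe.1 ha
      have hb' := mem_Qe.1 hb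
      refine good_pair hN.sym ha'.1 hb'.1 (De_ne (Pe_sub ha) h0) (De_ne (Qe_sub hb) h0) ?_ hab
      rw [ha'.2 j, hb'.2 j]
      exact fun h => fl_ne h0 h.symm
    · by_cases h3 : j ∈ Jp
      · rw [n3 j h3]
        exact K.good hN Pe_sub (fun a ha b hb i =>
          ((mem_Pe.1 ha).2 i).trans ((mem_Pe.1 hb).2 i).symm) (mem_filter.1 h3).2
          (mem_sdiff.1 (hp1 j h3)).1
      · by_cases h4 : j ∈ Jq
        · rw [n4 j h4]
          exact K.good hN Qe_sub (fun a ha b hb i =>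
            ((mem_Qe.1 ha).2 i).trans ((mem_Qe.1 hb).2 i).symm) (mem_filter.1 h4).2
            (mem_sdiff.1 (hq1 j h4)).1
        · rw [n1 j h2 h3 h4, empty_union]
          rcases hty j with h | h | h | h
          · obtain ⟨_, c, hc, hcD, h0, h⟩ := h
            left
            refine ⟨c, hc, h0, ?_⟩
            rw [h]
            ext v
            simp only [mem_sdiff, mem_singleton]
            constructor
            · exact fun h => h.1
            · rintro rfl
              exact ⟨rfl, hcD⟩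
          · exact absurd (mem_filter.2 ⟨mem_univ _, h⟩) h2
          · have h' : K W σ e (Pe W σ e) o j := h
            exact absurd (mem_filter.2 ⟨mem_univ _, h'⟩) h3
          · have h' : K W σ e (Qe W σ e) o j := h
            exact absurd (mem_filter.2 ⟨mem_univ _, h'⟩) h4
  · show Disjoint (n i ∪ (o i \ D)) (n j ∪ (o j \ D))
    rw [disjoint_left]
    intro v hv hv'
    rcases mem_union.1 hv with h1 | h1
    · rcases mem_union.1 hv' with h2 | h2
      · exact ndis i j hij v h1 h2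
      · exact (mem_sdiff.1 h2).2 (nD i h1)
    · rcases mem_union.1 hv' with h2 | h2
      · exact (mem_sdiff.1 h1).2 (nD j h2)
      · exact disjoint_left.1 (hdis i j hij) (mem_sdiff.1 h1).1 (mem_sdiff.1 h2).1

end Pool.Agent.Helper878_bj
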