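import Pool.Agent.Helper878_bj.Leaf

/-!
# Deleting a bounded number of vertices and terminal sets
-/

set_option autoImplicit false
set_option linter.unusedSectionVars false

namespace Pool.Agent.Helper878_bj

open Finset Pool.Agent.NPC Pool.Agent.H671R2.SF Pool.Agent.Helper878_dcs Pool.Agent.Helper878_mm
open Pool.Agent.Helper878_bs Pool.Agent.Helper878_bg Pool.Agent.Helper878_bh
open scoped Classical

/-- `a` and `b` see different classes -/
def aptB (E : List (ℕ × ℕ)) (Z : List ℕ) (a b : ℕ) : Bool :=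
  Z.all fun x => Z.all fun y => !adj E a x || (!adj E b y || !nearB E Z x y)

/-- the promise without deletions, as a program -/
def okU (E : List (ℕ × ℕ)) (W : List ℕ) (J : List (List ℕ)) : Bool :=
  (J.all fun Z => (decide (Z.length ≤ 2) || Z.any fun x => Z.any fun y => adj E x y) &&
    W.all fun w => Z.any fun z => adj E w z) &&
  W.all fun a => W.all fun b => decide (a = b) || (adj E a b || J.all fun Z => aptB E Z a b ||
    (!discB E (a :: Z) && !discB E (b :: Z)))

/-- the promise without deletions -/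
def Ok (E : List (ℕ × ℕ)) (W : Finset ℕ) (J : List (List ℕ)) : Prop :=
  (∀ Z ∈ J, Sml E Z ∧ ∀ w ∈ W, ∃ z ∈ Z, (GG E).Adj w z) ∧ Pr E W J

def leafU (E : List (ℕ × ℕ)) (W : List ℕ) (J : List (List ℕ)) : Bool :=
  okU E W J && (decide (2 * J.length + 1 ≤ W.length) && coreU E W J)

section
variable {γ : Type} [TEnc γ] {E : γ → List (ℕ × ℕ)} {W Z : γ → List ℕ} {J : γ → List (List ℕ)}
  {u v : γ → ℕ}

@[fun_prop]
theorem poly_aptB (hE : Poly E) (hZ : Poly Z) (hu : Poly u) (hv : Poly v) :
    Poly (fun x => aptB (E x) (Z x) (u x) (v x)) := by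
  unfold aptB; fun_prop

@[fun_prop]
theorem poly_okU (hE : Poly E) (hW : Poly W) (hJ : Poly J) :
    Poly (fun x => okU (E x) (W x) (J x)) := by
  unfold okU; fun_prop

@[fun_prop]
theorem poly_leafU (hE : Poly E) (hW : Poly W) (hJ : Poly J) :
    Poly (fun x => leafU (E x) (W x) (J x)) := by
  unfold leafU; fun_prop

end

/-- guess what happens to at most `m` vertices and terminal sets -/
def topU : ℕ → S3 → Bool
  | 0, x => leafU x.1 x.2.1 x.2.2
  | m + 1, x => leafU x.1 x.2.1 x.2.2 ||
      ((x.2.1.any fun a => topU m (x.1, (rm a x.2.1, x.2.2))) ||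
      (x.2.2.any fun Z => x.2.1.any fun a => x.2.1.any fun b => x.2.1.any fun c =>
        !discB x.1 (a :: b :: c :: Z) &&
          topU m (x.1, (rm c (rm b (rm a x.2.1)), rmZ Z x.2.2))))

/-- some at most `m` vertices and terminal sets can be deleted so that the promise holds -/
def nearU : ℕ → S3 → Bool
  | 0, x => okU x.1 x.2.1 x.2.2
  | m + 1, x => okU x.1 x.2.1 x.2.2 ||
      ((x.2.1.any fun a => nearU m (x.1, (rm a x.2.1, x.2.2))) ||
      (x.2.2.any fun Z => nearU m (x.1, (x.2.1, rmZ Z x.2.2))))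

theorem poly_topU : ∀ m, Poly (topU m)
  | 0 => by
    have e : topU 0 = fun x : S3 => leafU x.1 x.2.1 x.2.2 := by
      funext x; rfl
    rw [e]
    fun_prop
  | m + 1 => by
    have ih := poly_topU m
    have e : topU (m + 1) = fun x : S3 =>
      leafU x.1 x.2.1 x.2.2 ||
      ((x.2.1.any fun a => topU m (x.1, (rm a x.2.1, x.2.2))) ||
      (x.2.2.any fun Z => x.2.1.any fun a => x.2.1.any fun b => x.2.1.any fun c =>
        !discB x.1 (a :: b :: c :: Z) &&
          topU m (x.1, (rm c (rm b (rm a x.2.1)), rmZ Z x.2.2)))) := by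
      funext x; rfl
    rw [e]
    generalize topU m = f at ih
    fun_prop

theorem poly_nearU : ∀ m, Poly (nearU m)
  | 0 => by
    have e : nearU 0 = fun x : S3 => okU x.1 x.2.1 x.2.2 := by
      funext x; rfl
    rw [e]
    fun_prop
  | m + 1 => by
    have ih := poly_nearU m
    have e : nearU (m + 1) = fun x : S3 => okU x.1 x.2.1 x.2.2 ||
      ((x.2.1.any fun a => nearU m (x.1, (rm a x.2.1, x.2.2))) ||
      (x.2.2.any fun Z => nearU m (x.1, (x.2.1, rmZ Z x.2.2)))) := by
      funext x; rfl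
    rw [e]
    generalize nearU m = f at ih
    fun_prop

variable {E : List (ℕ × ℕ)} {U : Finset ℕ} {W : List ℕ} {J : List (List ℕ)}

theorem aptB_iff {Z : List ℕ} {a b : ℕ} : aptB E Z a b = true ↔ Apt E Z a b := by
  unfold aptB Apt
  simp only [List.all_eq_true, Bool.or_eq_true, Bool.not_eq_true', ← Bool.not_eq_true, adj_iff,
    Helper878_dcs.near_iff]
  refine forall_congr' fun x => forall_congr' fun _ => forall_congr' fun y =>
    forall_congr' fun _ => ?_
  tauto

theorem okU_iff : okU E W J = true ↔ Ok E W.toFinset J := by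
  unfold okU Ok Sml Pr
  rw [Bool.and_eq_true, List.all_eq_true, List.all_eq_true]
  refine and_congr (forall_congr' fun Z => forall_congr' fun _ => ?_)
    (forall_congr' fun a => ?_)
  · simp only [Bool.and_eq_true, Bool.or_eq_true, decide_eq_true_eq, List.any_eq_true, adj_iff,
      List.all_eq_true, List.mem_toFinset]
  · rw [List.mem_toFinset]
    refine forall_congr' fun _ => ?_
    rw [List.all_eq_true]
    refine forall_congr' fun b => ?_
    rw [List.mem_toFinset]
    refine forall_congr' fun _ => ?_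
    simp only [Bool.or_eq_true, decide_eq_true_eq, adj_iff, List.all_eq_true, aptB_iff,
      Bool.and_eq_true, Bool.not_eq_true']
    constructor
    · rintro (h | h | h) h1 h2
      · exact absurd h h1
      · exact absurd h h2
      · exact h
    · intro h
      by_cases h1 : a = b
      · exact Or.inl h1
      · by_cases h2 : (GG E).Adj a b
        · exact Or.inr (Or.inl h2)
        · exact Or.inr (Or.inr (h h1 h2))

theorem Ok.mono {U U' : Finset ℕ} {J J' : List (List ℕ)} (hU : U' ⊆ U)
    (hJ : ∀ Z ∈ J', Z ∈ J) (h : Ok E U J) : Ok E U' J' :=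
  ⟨fun Z hZ => ⟨(h.1 Z (hJ Z hZ)).1, fun w hw => (h.1 Z (hJ Z hZ)).2 w (hU hw)⟩,
    fun a ha b hb hne hab Z hZ => h.2 a (hU ha) b (hU hb) hne hab Z (hJ Z hZ)⟩

theorem Ok.td (hL : LCtx E U W J) (h : Ok E W.toFinset J) : TD E U W J where
  lc := hL
  nth := fun Z hZ => not_three_of_sml hL.hK (hL.hJU Z hZ) (hL.hne Z hZ) (hL.hdc Z hZ) (h.1 Z hZ).1
  dom := fun Z hZ w hw => (h.1 Z hZ).2 w (List.mem_toFinset.2 hw)

theorem leafU_iff (hL : LCtx E U W J) (hn : 2 * J.length + 1 ≤ W.length)
    (h : Ok E W.toFinset J) : leafU E W J = true ↔ Feas (GG E) W.toFinset (Zf J) := by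
  unfold leafU
  rw [Bool.and_eq_true, Bool.and_eq_true, decide_eq_true_eq,
    coreU_iff (Ok.td hL h) (hn_of (Ok.td hL h) h.2) hn, okU_iff]
  exact ⟨fun h' => h'.2.2, fun h' => ⟨h, hn, h'⟩⟩

theorem leafU_sound (hL : LCtx E U W J) (h : leafU E W J = true) :
    Feas (GG E) W.toFinset (Zf J) := by
  have h' := h
  unfold leafU at h'
  rw [Bool.and_eq_true, Bool.and_eq_true, decide_eq_true_eq, okU_iff] at h'
  exact (leafU_iff hL h'.2.1 h'.1).1 h

theorem len_go (hW : W.Nodup) {W' : List ℕ} (hn : W'.Nodup) {s : Finset ℕ}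
    (hW' : ∀ w, w ∈ W' ↔ w ∈ W ∧ w ∉ s) (hs : s.card ≤ 3) : W.length ≤ W'.length + 3 := by
  rw [← List.toFinset_card_of_nodup hW, ← List.toFinset_card_of_nodup hn]
  have h1 : W.toFinset ⊆ W'.toFinset ∪ s := by
    intro w hw
    by_cases hws : w ∈ s
    · exact mem_union_right _ hws
    · exact mem_union_left _ (List.mem_toFinset.2 ((hW' w).2 ⟨List.mem_toFinset.1 hw, hws⟩))
  have h2 := (card_le_card h1).trans (card_union_le _ _)
  omega

theorem len_rm (hW : W.Nodup) (a : ℕ) : W.length ≤ (rm a W).length + 1 := by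
  rw [← List.toFinset_card_of_nodup hW, ← List.toFinset_card_of_nodup (nodup_rm (a := a) hW)]
  have h1 : W.toFinset ⊆ insert a (rm a W).toFinset := by
    intro w hw
    by_cases hws : w = a
    · rw [hws]; exact mem_insert_self _ _
    · exact mem_insert_of_mem (List.mem_toFinset.2 (mem_rm.2 ⟨List.mem_toFinset.1 hw, hws⟩))
  exact (card_le_card h1).trans (card_insert_le _ _)

theorem len_rmZ (hJ : J.Nodup) {Z : List ℕ} (hZ : Z ∈ J) : (rmZ Z J).length + 1 ≤ J.length := by
  rw [← List.toFinset_card_of_nodup hJ, ← List.toFinset_card_of_nodup (nodup_rmZ (Z := Z) hJ)]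
  have h1 : (rmZ Z J).toFinset ⊆ J.toFinset.erase Z := by
    intro Y hY
    have := mem_rmZ.1 (List.mem_toFinset.1 hY)
    exact mem_erase.2 ⟨this.2, List.mem_toFinset.2 this.1⟩
  have h2 := card_le_card h1
  rw [card_erase_of_mem (List.mem_toFinset.2 hZ)] at h2
  have h3 := card_pos.2 ⟨Z, List.mem_toFinset.2 hZ⟩
  omega

theorem topU_sound : ∀ (m : ℕ) (W : List ℕ) (J : List (List ℕ)), LCtx E U W J →
    topU m (E, (W, J)) = true → Feas (GG E) W.toFinset (Zf J) := by
  have leaf : ∀ (W : List ℕ) (J : List (List ℕ)), LCtx E U W J →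
      leafU E W J = true → Feas (GG E) W.toFinset (Zf J) := fun W J h hl => leafU_sound h hl
  intro m
  induction m with
  | zero => exact leaf
  | succ m ih =>
    intro W J h hr
    unfold topU at hr
    dsimp only at hr
    rw [Bool.or_eq_true, Bool.or_eq_true] at hr
    simp only [List.any_eq_true] at hr
    rcases hr with hr | ⟨a, ha, hr⟩ | ⟨Z, hZ, a, ha, b, hb, c, hc, hr⟩
    · exact leaf W J h hr
    · exact feas_del (ih _ _ (LCtx.mono h (fun w hw => (mem_rm.1 hw).1) (nodup_rm h.hWn)
        (fun Z hZ => hZ) h.hJn) hr)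
    · rw [Bool.and_eq_true, con3 h hZ ha hb hc] at hr
      refine feas_step (s := {a, b, c}) ?_ hr.1 (W' := rm c (rm b (rm a W))) ?_
        (ih _ _ (LCtx.mono h (fun w hw => (mem_rm.1 (mem_rm.1 (mem_rm.1 hw).1).1).1)
          (nodup_rm (nodup_rm (nodup_rm h.hWn))) (fun Z hZ => (mem_rmZ.1 hZ).1)
          (nodup_rmZ h.hJn)) hr.2)
      · intro x hx
        simp only [mem_insert, mem_singleton] at hx
        rcases hx with rfl | rfl | rfl <;> exact List.mem_toFinset.2 (by assumption)
      · intro w hw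
        rw [mem_rm, mem_rm, mem_rm] at hw
        refine ⟨hw.1.1.1, fun hx => ?_⟩
        simp only [mem_insert, mem_singleton] at hx
        rcases hx with hx | hx | hx
        · exact hw.1.1.2 hx
        · exact hw.1.2 hx
        · exact hw.2 hx

theorem topU_complete : ∀ (m : ℕ) (S : Finset ℕ) (T : Finset (List ℕ)) (W : List ℕ)
    (J : List (List ℕ)), LCtx E U W J → S ⊆ W.toFinset → (∀ Z ∈ T, Z ∈ J) →
    S.card + T.card ≤ m → 2 * J.length + 1 + m ≤ W.length → Ok E (W.toFinset \ S) (mns J T) →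
    Feas (GG E) W.toFinset (Zf J) → topU m (E, (W, J)) = true := by
  have leaf : ∀ (W : List ℕ) (J : List (List ℕ)), LCtx E U W J →
      2 * J.length + 1 ≤ W.length →
      Ok E (W.toFinset \ ∅) (mns J ∅) → Feas (GG E) W.toFinset (Zf J) →
      leafU E W J = true := by
    intro W J h hn hk hs
    have hk' : Ok E W.toFinset J :=
      Ok.mono (by rw [sdiff_empty]) (fun Z hZ => mem_mns.2 ⟨hZ, notMem_empty Z⟩) hk
    exact (leafU_iff h hn hk').2 hs
  intro m
  induction m with
  | zero =>
    intro S T W J h hS hT hc hcn hk hs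
    have h1 : S = ∅ := card_eq_zero.1 (by omega)
    have h2 : T = ∅ := card_eq_zero.1 (by omega)
    subst h1 h2
    exact leaf W J h (by omega) hk hs
  | succ m ih =>
    intro S T W J h hS hT hc hcn hk hs
    unfold topU
    dsimp only
    rw [Bool.or_eq_true, Bool.or_eq_true]
    simp only [List.any_eq_true]
    have hsol := hs
    obtain ⟨g, hg, hd⟩ := shrink h hs
    by_cases hex : ∃ i : {Z // Z ∈ J}, i.1 ∈ T ∨ ∃ s ∈ S, s ∈ g i
    · obtain ⟨i, hi⟩ := hex
      have hce : (S \ g i).card + (T.erase i.1).card ≤ m := by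
        have c1 : (S \ g i).card ≤ S.card := card_le_card sdiff_subset
        have c2 : (T.erase i.1).card ≤ T.card := card_le_card (erase_subset _ _)
        rcases hi with hi | ⟨s, hsS, hsi⟩
        · have := card_erase_of_mem hi
          have := card_pos.2 ⟨i.1, hi⟩
          omega
        · have : (S \ g i).card < S.card := by
            refine card_lt_card ⟨sdiff_subset, fun hsub => ?_⟩
            exact (mem_sdiff.1 (hsub hsS)).2 hsi
          omega
      have go : ∀ W' : List ℕ, W'.Nodup → (∀ w, w ∈ W' ↔ w ∈ W ∧ w ∉ g i) →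
          topU m (E, (W', rmZ i.1 J)) = true := by
        intro W' hn hW'
        have l1 := len_rmZ h.hJn i.2
        have l2 := len_go h.hWn hn hW' (by
          obtain ⟨_, _, a, b, c, _, _, _, hgi⟩ := hg i
          rw [hgi]
          exact card_le_three)
        refine ih (S \ g i) (T.erase i.1) W' (rmZ i.1 J) ?_ ?_ ?_ hce (by omega) ?_ ?_
        · exact LCtx.mono h (fun w hw => ((hW' w).1 hw).1) hn (fun Z hZ => (mem_rmZ.1 hZ).1)
            (nodup_rmZ h.hJn)
        · intro x hx
          rw [mem_sdiff] at hx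
          exact List.mem_toFinset.2 ((hW' x).2 ⟨List.mem_toFinset.1 (hS hx.1), hx.2⟩)
        · intro Z hZ
          rw [mem_erase] at hZ
          exact mem_rmZ.2 ⟨hT Z hZ.2, hZ.1⟩
        · refine Ok.mono ?_ ?_ hk
          · intro x hx
            rw [mem_sdiff, List.mem_toFinset, hW', mem_sdiff] at hx
            exact mem_sdiff.2 ⟨List.mem_toFinset.2 hx.1.1, fun hxS => hx.2 ⟨hxS, hx.1.2⟩⟩
          · intro Z hZ
            rw [mem_mns, mem_rmZ, mem_erase] at hZ
            exact mem_mns.2 ⟨hZ.1.1, fun hZT => hZ.2 ⟨hZ.1.2, hZT⟩⟩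
        · have hm : ∀ j : {Z // Z ∈ rmZ i.1 J}, j.1 ∈ J := fun j => (mem_rmZ.1 j.2).1
          refine ⟨fun j => g ⟨j.1, hm j⟩, fun j => ⟨fun x hx => ?_, (hg ⟨j.1, hm j⟩).2.1⟩,
            fun j k hjk => hd _ _ fun he => hjk (Subtype.ext (Subtype.mk.inj he))⟩
          refine List.mem_toFinset.2 ((hW' x).2 ⟨List.mem_toFinset.1 ((hg ⟨j.1, hm j⟩).1 hx),
            fun hxi => ?_⟩)
          refine disjoint_left.1 (hd ⟨j.1, hm j⟩ i fun he => ?_) hx hxi
          exact (mem_rmZ.1 j.2).2 (congrArg Subtype.val he)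
      obtain ⟨-, hcon, a, b, c, ha, hb, hcW, hgi⟩ := hg i
      refine Or.inr (Or.inr ⟨i.1, i.2, a, ha, b, hb, c, hcW, ?_⟩)
      rw [Bool.and_eq_true, con3 h i.2 ha hb hcW]
      rw [hgi] at hcon
      refine ⟨hcon, go _ (nodup_rm (nodup_rm (nodup_rm h.hWn))) fun w => ?_⟩
      rw [mem_rm, mem_rm, mem_rm, hgi]
      simp only [mem_insert, mem_singleton]
      tauto
    · push Not at hex
      have hT0 : T = ∅ := by
        rw [eq_empty_iff_forall_notMem]
        intro Z hZ
        exact (hex ⟨Z, hT Z hZ⟩).1 hZ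
      subst hT0
      by_cases hne : S.Nonempty
      swap
      · rw [not_nonempty_iff_eq_empty] at hne
        subst hne
        exact Or.inl (leaf W J h (by omega) hk hsol)
      obtain ⟨s, hsS⟩ := hne
      have hsW : s ∈ W := List.mem_toFinset.1 (hS hsS)
      have hce : (S.erase s).card + (∅ : Finset (List ℕ)).card ≤ m := by
        rw [card_erase_of_mem hsS]
        rw [card_empty] at hc ⊢
        omega
      have l2 := len_rm h.hWn s
      refine Or.inr (Or.inl ⟨s, hsW, ih (S.erase s) ∅ (rm s W) J ?_ ?_ (by simp) hce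
        (by omega) ?_ ?_⟩)
      · exact LCtx.mono h (fun w hw => (mem_rm.1 hw).1) (nodup_rm h.hWn)
          (fun Z hZ => hZ) h.hJn
      · intro x hx
        rw [mem_erase] at hx
        exact List.mem_toFinset.2 (mem_rm.2 ⟨List.mem_toFinset.1 (hS hx.2), hx.1⟩)
      · refine Ok.mono ?_ (fun Z hZ => hZ) hk
        intro x hx
        rw [mem_sdiff, List.mem_toFinset, mem_rm, mem_erase] at hx
        exact mem_sdiff.2 ⟨List.mem_toFinset.2 hx.1.1, fun hxS => hx.2 ⟨hx.1.2, hxS⟩⟩
      · refine ⟨g, fun i => ⟨fun x hx => ?_, (hg i).2.1⟩, hd⟩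
        refine List.mem_toFinset.2 (mem_rm.2 ⟨List.mem_toFinset.1 ((hg i).1 hx), fun he =>
          (hex i).2 s hsS ?_⟩)
        rw [← he]; exact hx

theorem nearU_iff : ∀ (m : ℕ) (W : List ℕ) (J : List (List ℕ)), W.Nodup →
    (nearU m (E, (W, J)) = true ↔ ∃ S ⊆ W.toFinset, ∃ T : Finset (List ℕ),
      (∀ Z ∈ T, Z ∈ J) ∧ S.card + T.card ≤ m ∧
      Ok E (W.toFinset \ S) (mns J T)) := by
  have leaf : ∀ (W : List ℕ) (J : List (List ℕ)), Ok E W.toFinset J ↔
      Ok E (W.toFinset \ ∅) (mns J ∅) := by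
    intro W J
    constructor
    · exact Ok.mono (by rw [sdiff_empty]) (fun Z hZ => (mem_mns.1 hZ).1)
    · exact Ok.mono (by rw [sdiff_empty]) (fun Z hZ => mem_mns.2 ⟨hZ, notMem_empty Z⟩)
  intro m
  induction m with
  | zero =>
    intro W J hW
    unfold nearU
    dsimp only
    rw [okU_iff, leaf]
    constructor
    · intro h
      exact ⟨∅, empty_subset _, ∅, by simp, by simp, h⟩
    · rintro ⟨S, _, T, _, hc, hk⟩
      have h1 : S = ∅ := card_eq_zero.1 (by omega)
      have h2 : T = ∅ := card_eq_zero.1 (by omega)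
      subst h1 h2
      exact hk
  | succ m ih =>
    intro W J hW
    unfold nearU
    dsimp only
    rw [Bool.or_eq_true, Bool.or_eq_true, List.any_eq_true, List.any_eq_true, okU_iff, leaf]
    constructor
    · rintro (h | ⟨a, ha, h⟩ | ⟨Z, hZ, h⟩)
      · exact ⟨∅, empty_subset _, ∅, by simp, by simp, h⟩
      · rw [ih _ _ (nodup_rm hW)] at h
        obtain ⟨S, hS, T, hT, hc, hk⟩ := h
        refine ⟨insert a S, ?_, T, hT, ?_, ?_⟩
        · refine insert_subset (List.mem_toFinset.2 ha) fun x hx => ?_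
          exact List.mem_toFinset.2 (mem_rm.1 (List.mem_toFinset.1 (hS hx))).1
        · have := card_insert_le a S
          omega
        · refine Ok.mono ?_ (fun Z hZ => hZ) hk
          intro x hx
          rw [mem_sdiff, mem_insert, List.mem_toFinset, not_or] at hx
          exact mem_sdiff.2 ⟨List.mem_toFinset.2 (mem_rm.2 ⟨hx.1, hx.2.1⟩), hx.2.2⟩
      · rw [ih _ _ hW] at h
        obtain ⟨S, hS, T, hT, hc, hk⟩ := h
        refine ⟨S, hS, insert Z T, ?_, ?_, ?_⟩
        · intro Y hY
          rcases mem_insert.1 hY with rfl | hY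
          · exact hZ
          · exact (mem_rmZ.1 (hT Y hY)).1
        · have := card_insert_le Z T
          omega
        · refine Ok.mono (Subset.refl _) ?_ hk
          intro Y hY
          rw [mem_mns, mem_insert, not_or] at hY
          exact mem_mns.2 ⟨mem_rmZ.2 ⟨hY.1, hY.2.1⟩, hY.2.2⟩
    · rintro ⟨S, hS, T, hT, hc, hk⟩
      by_cases hne : S.Nonempty
      · obtain ⟨s, hs⟩ := hne
        refine Or.inr (Or.inl ⟨s, List.mem_toFinset.1 (hS hs), (ih _ _ (nodup_rm hW)).2
          ⟨S.erase s, ?_, T, hT, ?_, ?_⟩⟩)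
        · intro x hx
          rw [mem_erase] at hx
          exact List.mem_toFinset.2 (mem_rm.2 ⟨List.mem_toFinset.1 (hS hx.2), hx.1⟩)
        · have := card_erase_of_mem hs
          have := card_pos.2 ⟨s, hs⟩
          omega
        · refine Ok.mono ?_ (fun Z hZ => hZ) hk
          intro x hx
          rw [mem_sdiff, List.mem_toFinset, mem_rm, mem_erase] at hx
          exact mem_sdiff.2 ⟨List.mem_toFinset.2 hx.1.1, fun hxS => hx.2 ⟨hx.1.2, hxS⟩⟩
      · rw [not_nonempty_iff_eq_empty] at hne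
        subst hne
        by_cases hne : T.Nonempty
        · obtain ⟨Z, hZ⟩ := hne
          refine Or.inr (Or.inr ⟨Z, hT Z hZ, (ih _ _ hW).2 ⟨∅, empty_subset _, T.erase Z,
            ?_, ?_, ?_⟩⟩)
          · intro Y hY
            rw [mem_erase] at hY
            exact mem_rmZ.2 ⟨hT Y hY.2, hY.1⟩
          · have := card_erase_of_mem hZ
            have := card_pos.2 ⟨Z, hZ⟩
            omega
          · refine Ok.mono (Subset.refl _) ?_ hk
            intro Y hY
            rw [mem_mns, mem_rmZ, mem_erase] at hY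
            exact mem_mns.2 ⟨hY.1.1, fun hYT => hY.2 ⟨hY.1.2, hYT⟩⟩
        · rw [not_nonempty_iff_eq_empty] at hne
          subst hne
          exact Or.inl hk

end Pool.Agent.Helper878_bj
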